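import Mathlib
import Pool.Agent.Work.MP_2fb0b3_al.Affine

/-! A subset of a finite vector space over a prime field of odd order that no nontrivial affine
permutation of odd order preserves. -/

namespace Pool.Agent.Work.MP_2fb0b3_al.Hedge

open Pool.Agent.Work.MP_2fb0b3_al

lemma inv_back {X : Type*} (σ : Equiv.Perm X) {k : ℕ} (hk : Odd k) (hσ : σ ^ k = 1)
    (P : X → Prop) (hP : ∀ y, P y → P (σ y)) {y : X} (hy : P (σ y)) : P y := by
  obtain ⟨m, rfl⟩ := hk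
  have h : ∀ (n : ℕ) z, P z → P ((σ ^ n) z) := by
    intro n
    induction n with
    | zero => intro z hz; exact hz
    | succ n ih =>
      intro z hz
      rw [pow_succ', Equiv.Perm.mul_apply]
      exact hP _ (ih z hz)
  have h1 := h (2 * m) _ hy
  rwa [← Equiv.Perm.mul_apply, ← pow_succ, hσ] at h1

lemma pair_sum {R : Type*} [Field R] (h2 : (2 : R) ≠ 0) {a g b c : R} (ha : a = 0 ∨ a = 1)
    (hg : g = 0 ∨ g = 1) (hb : b = 0 ∨ b = 1) (hc : c = 0 ∨ c = 1) (e : a + g = b + c) :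
    (a = b ∧ g = c) ∨ (a = c ∧ g = b) := by
  have h2' : (1 : R) + 1 ≠ 0 := by rwa [one_add_one_eq_two]
  rcases ha with rfl | rfl <;> rcases hg with rfl | rfl <;> rcases hb with rfl | rfl <;>
    rcases hc with rfl | rfl <;> simp_all [eq_comm (a := (0 : R))]

variable {p d : ℕ}

/-- The set used as a colour class. -/
def S2 (v : Fin (d + 1) → ZMod p) : Prop := SS v ∨ (2 ≤ d ∧ v = -ee 0)

/-- The span of the first `i + 1` basis vectors. -/
def Low (i : ℕ) (v : Fin (d + 1) → ZMod p) : Prop := ∀ t : Fin (d + 1), i < t.val → v t = 0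

/-- Indicator vector of one or two coordinates. -/
def ind (a b : ℕ) : Fin (d + 1) → ZMod p := fun t => if t.val = a ∨ t.val = b then 1 else 0

lemma ee_ind (j : Fin (d + 1)) : (ee j : Fin (d + 1) → ZMod p) = ind j j := by
  funext t
  rw [ee_apply]
  simp [ind, Fin.ext_iff]

lemma ee_add_ind (j k : Fin (d + 1)) (h : k.val = j.val + 1) :
    (ee j + ee k : Fin (d + 1) → ZMod p) = ind j k := by
  funext t
  rw [Pi.add_apply, ee_apply, ee_apply]
  simp only [ind, Fin.ext_iff]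
  split_ifs <;> first | omega | simp

lemma SS_ind {v : Fin (d + 1) → ZMod p} (h : SS v) :
    v = 0 ∨ ∃ a b : ℕ, b ≤ d ∧ (b = a ∨ b = a + 1) ∧ v = ind a b := by
  rcases h with rfl | ⟨j, rfl⟩ | ⟨j, k, hjk, rfl⟩
  · exact Or.inl rfl
  · exact Or.inr ⟨j, j, by omega, Or.inl rfl, ee_ind j⟩
  · exact Or.inr ⟨j, k, by omega, Or.inr hjk, ee_add_ind j k hjk⟩

lemma SS_coord {v : Fin (d + 1) → ZMod p} (h : SS v) (t : Fin (d + 1)) : v t = 0 ∨ v t = 1 := by
  rcases SS_ind h with rfl | ⟨a, b, -, -, rfl⟩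
  · exact Or.inl rfl
  · unfold ind
    split_ifs <;> simp

lemma low_neg (i : ℕ) : Low i (-ee 0 : Fin (d + 1) → ZMod p) := by
  intro t ht
  rw [Pi.neg_apply, ee_apply, if_neg, neg_zero]
  rintro rfl
  simp at ht

lemma low_ee {i : ℕ} {j : Fin (d + 1)} (h : j.val ≤ i) : Low i (ee j : Fin (d + 1) → ZMod p) := by
  intro t ht
  rw [ee_apply, if_neg]
  rintro rfl
  omega

lemma S2_high {i : ℕ} {v : Fin (d + 1) → ZMod p} (h : S2 v) (h' : ¬ Low i v) : SS v := by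
  rcases h with h | ⟨-, rfl⟩
  · exact h
  · exact absurd (low_neg i) h'

lemma S2_coord {v : Fin (d + 1) → ZMod p} (h : S2 v) (t : Fin (d + 1)) (ht : 0 < t.val) :
    v t = 0 ∨ v t = 1 := by
  rcases h with h | ⟨-, rfl⟩
  · exact SS_coord h t
  · exact Or.inl (low_neg 0 t ht)

section
variable [Fact p.Prime] (τ : Equiv.Perm (Fin (d + 1) → ZMod p)) {k : ℕ}

lemma aff_add (haff : ∀ v, ∃ v', ∀ w, τ (v + w) = v' + τ w) (u w : Fin (d + 1) → ZMod p) :
    τ (u + w) = τ u + τ w - τ 0 := by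
  obtain ⟨v', hv'⟩ := haff u
  have h := hv' 0
  rw [add_zero] at h
  rw [hv', h]
  abel

lemma finish (hk : Odd k) (hτ : τ ^ k = 1) (haff : ∀ v, ∃ v', ∀ w, τ (v + w) = v' + τ w)
    (h0 : τ 0 = 0) (h1 : τ (ee 0) = ee 0) (hS : ∀ y, SS y → SS (τ y)) (v : Fin (d + 1) → ZMod p) :
    τ v = v := by
  have hA : ∀ y, AA y → AA (τ y) := by
    rintro y (rfl | rfl)
    · exact Or.inl h0
    · exact Or.inr h1
  refine rigid τ hk hτ haff (fun u => ?_) v
  have e1 : AA (τ u) ↔ AA u := ⟨inv_back τ hk hτ AA hA, hA u⟩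
  have e2 : SS (τ u) ↔ SS u := ⟨inv_back τ hk hτ SS hS, hS u⟩
  unfold col
  by_cases h2 : AA u
  · rw [if_pos h2, if_pos (e1.2 h2)]
  rw [if_neg h2, if_neg (mt e1.1 h2)]
  by_cases h3 : SS u
  · rw [if_pos h3, if_pos (e2.2 h3)]
  · rw [if_neg h3, if_neg (mt e2.1 h3)]

lemma low_map (haff : ∀ v, ∃ v', ∀ w, τ (v + w) = v' + τ w) (i : ℕ) (h0 : Low i (τ 0))
    (he : ∀ j : Fin (d + 1), j.val ≤ i → Low i (τ (ee j))) (y : Fin (d + 1) → ZMod p)
    (hy : Low i y) : Low i (τ y) := by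
  let f : (Fin (d + 1) → ZMod p) →+ (Fin (d + 1) → ZMod p) :=
    AddMonoidHom.mk' (fun u => τ u - τ 0) fun u w => by
      rw [aff_add τ haff]
      abel
  have hf : ∀ u, f u = τ u - τ 0 := fun _ => rfl
  have e : y = ∑ j, y j • ee j := by
    funext t
    simp [ee, Finset.sum_apply, Pi.single_apply]
  intro t ht
  have h1 : f y t = 0 := by
    rw [e, map_sum, Finset.sum_apply]
    refine Finset.sum_eq_zero fun j _ => ?_
    rw [ZMod.map_smul, Pi.smul_apply]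
    rcases le_or_gt j.val i with h | h
    · rw [hf, Pi.sub_apply, he j h t ht, h0 t ht, sub_zero, smul_zero]
    · rw [hy j h, zero_smul]
  rwa [hf, Pi.sub_apply, h0 t ht, sub_zero] at h1

lemma step (hk : Odd k) (hτ : τ ^ k = 1) (haff : ∀ v, ∃ v', ∀ w, τ (v + w) = v' + τ w)
    (hS : ∀ y, S2 y → S2 (τ y)) (i j : Fin (d + 1)) (hij : j.val = i.val + 1)
    (hL : ∀ y, Low i y → Low i (τ y)) :
    τ (ee j) = ee j ∧ τ (ee i + ee j) = ee i + ee j := by
  let U : (Fin (d + 1) → ZMod p) → Prop := fun y =>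
    S2 y ∧ ¬ Low i y ∧ ∃ y', y' ≠ y ∧ S2 y' ∧ Low i (y' - y)
  have hU : ∀ y, U y → U (τ y) := by
    rintro y ⟨h1, h2, y', h3, h4, h5⟩
    refine ⟨hS y h1, fun h => h2 (inv_back τ hk hτ _ hL h), τ y', fun h => h3 (τ.injective h),
      hS _ h4, fun t ht => ?_⟩
    have h6 := aff_add τ haff (y' - y) y
    rw [sub_add_cancel] at h6
    have h7 := hL _ h5 t ht
    have h8 := hL 0 (fun _ _ => rfl) t ht
    rw [Pi.sub_apply, h6, Pi.sub_apply, Pi.add_apply, h7, h8]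
    ring
  have hne : (ee i + ee j : Fin (d + 1) → ZMod p) ≠ ee j := by
    intro h
    have h1 := congrFun (add_eq_right.1 h) i
    rw [ee_apply, if_pos rfl] at h1
    exact one_ne_zero h1
  have hj : ¬ Low i (ee j : Fin (d + 1) → ZMod p) := fun h => by
    have h1 := h j (by omega)
    rw [ee_apply, if_pos rfl] at h1
    exact one_ne_zero h1
  have hi : Low i (ee i : Fin (d + 1) → ZMod p) := low_ee le_rfl
  have s1 : S2 (ee j : Fin (d + 1) → ZMod p) := Or.inl (Or.inr (Or.inl ⟨j, rfl⟩))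
  have s2 : S2 (ee i + ee j : Fin (d + 1) → ZMod p) := Or.inl (Or.inr (Or.inr ⟨i, j, hij, rfl⟩))
  have hcl : ∀ y, U y → y = ee j ∨ y = ee i + ee j := by
    rintro y ⟨h1, h2, y', h3, h4, h5⟩
    have hag : ∀ t : Fin (d + 1), i.val < t.val → y' t = y t := fun t ht =>
      sub_eq_zero.1 (h5 t ht)
    have h2' : ¬ Low i y' := fun h => h2 fun t ht => by rw [← hag t ht, h t ht]
    rcases SS_ind (S2_high h1 h2) with rfl | ⟨a, b, hb, hab, rfl⟩
    · exact absurd (fun _ _ => rfl) h2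
    rcases SS_ind (S2_high h4 h2') with rfl | ⟨a', b', hb', hab', rfl⟩
    · exact absurd (fun _ _ => rfl) h2'
    have key : ∀ t : ℕ, t ≤ d → i.val < t → ((t = a' ∨ t = b') ↔ (t = a ∨ t = b)) := by
      intro t h6 h7
      have h8 := hag ⟨t, by omega⟩ h7
      simp only [ind] at h8
      split_ifs at h8 with h9 h10 h10
      · exact iff_of_true h9 h10
      · exact absurd h8 one_ne_zero
      · exact absurd h8 zero_ne_one
      · exact iff_of_false h9 h10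
    have hbi : i.val < b := by
      by_contra h6
      exact h2 fun t ht => if_neg (by omega)
    have hbi' : i.val < b' := by
      by_contra h6
      exact h2' fun t ht => if_neg (by omega)
    have hn : ¬ (a' = a ∧ b' = b) := by
      rintro ⟨rfl, rfl⟩
      exact h3 rfl
    have k1 := key a (by omega)
    have k2 := key b hb
    have k3 := key a' (by omega)
    have k4 := key b' hb'
    rw [ee_add_ind i j hij, ee_ind]
    by_cases h6 : a = b
    · left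
      congr 1 <;> omega
    · right
      congr 1 <;> omega
  refine ⟨two_point τ hk hτ U hU _ (ee i + ee j) ⟨s1, hj, _, hne, s2, ?_⟩ hcl,
    two_point τ hk hτ U hU _ (ee j) ⟨s2, fun h => hj fun t ht => ?_, _, hne.symm, s1, ?_⟩
      fun y hy => (hcl y hy).symm⟩
  · rwa [add_sub_cancel_right]
  · have h1 := h t ht
    rwa [Pi.add_apply, hi t ht, zero_add] at h1
  · intro t ht
    rw [sub_add_cancel_right, Pi.neg_apply, hi t ht, neg_zero]

lemma two_ne (hp : p ≠ 2) : (2 : ZMod p) ≠ 0 := by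
  intro h
  have h1 : ((2 : ℕ) : ZMod p) = 0 := by exact_mod_cast h
  rw [ZMod.natCast_eq_zero_iff] at h1
  exact hp ((Nat.prime_dvd_prime_iff_eq Fact.out Nat.prime_two).1 h1)

lemma midpoint (hp : p ≠ 2) {x w y : Fin (d + 1) → ZMod p} (hx : S2 x) (hw : S2 w) (hy : S2 y)
    (hne : x ≠ w) (e : x + w = y + y) : Low 0 x ∧ Low 0 y := by
  have hag : ∀ t : Fin (d + 1), 0 < t.val → x t = y t ∧ w t = y t := fun t ht => by
    have h := pair_sum (two_ne hp) (S2_coord hx t ht) (S2_coord hw t ht) (S2_coord hy t ht)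
      (S2_coord hy t ht) (congrFun e t)
    tauto
  have h1 : Low 0 y := by
    by_contra h
    have h2 : ¬ Low 0 x := fun h' => h fun t ht => by rw [← (hag t ht).1, h' t ht]
    have h3 : ¬ Low 0 w := fun h' => h fun t ht => by rw [← (hag t ht).2, h' t ht]
    apply hne
    funext t
    have h4 := pair_sum (two_ne hp) (SS_coord (S2_high hx h2) t) (SS_coord (S2_high hw h3) t)
      (SS_coord (S2_high hy h) t) (SS_coord (S2_high hy h) t) (congrFun e t)
    rcases h4 with ⟨h5, h6⟩ | ⟨h5, h6⟩ <;> rw [h5, h6]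
  exact ⟨fun t ht => by rw [(hag t ht).1, h1 t ht], h1⟩

lemma rigid_big (hp : p ≠ 2) (hd : 2 ≤ d) (hk : Odd k) (hτ : τ ^ k = 1)
    (haff : ∀ v, ∃ v', ∀ w, τ (v + w) = v' + τ w) (hS : ∀ y, S2 y → S2 (τ y))
    (v : Fin (d + 1) → ZMod p) : τ v = v := by
  have hne : (ee 0 : Fin (d + 1) → ZMod p) ≠ -ee 0 := by
    intro h
    have h1 := congrFun h 0
    rw [Pi.neg_apply, ee_apply, if_pos rfl] at h1
    exact two_ne hp (by linear_combination h1)
  have hm := aff_add τ haff (ee 0) (-ee 0)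
  rw [add_neg_cancel] at hm
  obtain ⟨l1, l0⟩ := midpoint hp (hS _ (Or.inl (Or.inr (Or.inl ⟨0, rfl⟩))))
    (hS _ (Or.inr ⟨hd, rfl⟩)) (hS 0 (Or.inl (Or.inl rfl))) (fun h => hne (τ.injective h))
    (by rw [← sub_eq_iff_eq_add, ← hm])
  let i1 : Fin (d + 1) := ⟨1, by omega⟩
  let i2 : Fin (d + 1) := ⟨2, by omega⟩
  obtain ⟨a1, a2⟩ := step τ hk hτ haff hS 0 i1 rfl (low_map τ haff _ l0 fun j hj => by
    have : j = 0 := Fin.ext (by simpa using hj)
    rw [this]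
    exact l1)
  obtain ⟨a3, a4⟩ := step τ hk hτ haff hS i1 i2 rfl (low_map τ haff _
    (fun t ht => l0 t (by simp only [i1] at ht; omega)) fun j hj => by
      by_cases h : j = 0
      · rw [h]
        exact fun t ht => l1 t (by simp only [i1] at ht; omega)
      · have : j = i1 := Fin.ext (by
          have : j.val ≠ 0 := fun h' => h (Fin.ext h')
          simp only [i1] at hj ⊢
          omega)
        rw [this, a1]
        exact low_ee le_rfl)
  rw [aff_add τ haff, a1, a3] at a4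
  have h0 : τ 0 = 0 := sub_eq_self.1 a4
  rw [aff_add τ haff, a1, h0, sub_zero] at a2
  have h1 : τ (ee 0) = ee 0 := add_right_cancel a2
  have h2 : τ (-ee 0) = -ee 0 := by
    rw [h0, h1, sub_zero] at hm
    exact (neg_eq_of_add_eq_zero_right hm.symm).symm
  refine finish τ hk hτ haff h0 h1 (fun y hy => ?_) v
  rcases hS y (Or.inl hy) with h | ⟨-, h⟩
  · exact h
  · rw [← h2] at h
    rw [τ.injective h, h2, ← τ.injective h]
    exact hy

end

lemma rigid_one [Fact p.Prime] (τ : Equiv.Perm (Fin (0 + 1) → ZMod p)) {k : ℕ} (hk : Odd k)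
    (hτ : τ ^ k = 1) (haff : ∀ v, ∃ v', ∀ w, τ (v + w) = v' + τ w) (hS : ∀ y, SS y → SS (τ y))
    (v : Fin (0 + 1) → ZMod p) : τ v = v := by
  have hcl : ∀ y : Fin (0 + 1) → ZMod p, SS y → y = 0 ∨ y = ee 0 := by
    rintro y (rfl | ⟨j, rfl⟩ | ⟨j, k, h, rfl⟩)
    · exact Or.inl rfl
    · exact Or.inr (by rw [Subsingleton.elim (α := Fin 1) j 0])
    · omega
  exact finish τ hk hτ haff (two_point τ hk hτ SS hS 0 _ (Or.inl rfl) hcl)
    (two_point τ hk hτ SS hS _ 0 (Or.inr (Or.inl ⟨0, rfl⟩)) fun y hy => (hcl y hy).symm) hS v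

lemma quad {R : Type*} [Field R] (h2 : (2 : R) ≠ 0) {a g b c : Fin 2 → R}
    (ha : ∀ t, a t = 0 ∨ a t = 1) (hg : ∀ t, g t = 0 ∨ g t = 1) (hb : ∀ t, b t = 0 ∨ b t = 1)
    (hc : ∀ t, c t = 0 ∨ c t = 1) (e : a + g = b + c) (hab : a ≠ b) (hac : a ≠ c) :
    (g 0 = g 1 ↔ a 0 = a 1) ∧ (b 0 = b 1 ↔ a 0 ≠ a 1) ∧ (c 0 = c 1 ↔ a 0 ≠ a 1) := by
  have e0 := pair_sum h2 (ha 0) (hg 0) (hb 0) (hc 0) (congrFun e 0)
  have e1 := pair_sum h2 (ha 1) (hg 1) (hb 1) (hc 1) (congrFun e 1)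
  have n1 : ¬ (a 0 = b 0 ∧ a 1 = b 1) := fun h => hab (funext (Fin.forall_fin_two.2 h))
  have n2 : ¬ (a 0 = c 0 ∧ a 1 = c 1) := fun h => hac (funext (Fin.forall_fin_two.2 h))
  have a0 := ha 0
  have a1 := ha 1
  have g0 := hg 0
  have g1 := hg 1
  have z : (0 : R) ≠ 1 := zero_ne_one
  grind

lemma rigid_two [Fact p.Prime] (hp : p ≠ 2) (τ : Equiv.Perm (Fin (1 + 1) → ZMod p)) {k : ℕ}
    (hk : Odd k) (hτ : τ ^ k = 1) (haff : ∀ v, ∃ v', ∀ w, τ (v + w) = v' + τ w)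
    (hS : ∀ y, SS y → SS (τ y)) (v : Fin (1 + 1) → ZMod p) : τ v = v := by
  have hcl : ∀ y : Fin (1 + 1) → ZMod p, SS y →
      ((y = 0 ∨ y = ee 0 + ee 1) ∧ y 0 = y 1) ∨ ((y = ee 0 ∨ y = ee 1) ∧ y 0 ≠ y 1) := by
    rintro y (rfl | ⟨j, rfl⟩ | ⟨j, k, h, rfl⟩)
    · exact Or.inl ⟨Or.inl rfl, rfl⟩
    · fin_cases j
      · exact Or.inr ⟨Or.inl rfl, by simp [ee_apply]⟩
      · exact Or.inr ⟨Or.inr rfl, by simp [ee_apply]⟩
    · have h1 : j = 0 := Fin.ext (by simp; omega)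
      have h2 : k = 1 := Fin.ext (by simp; omega)
      subst h1 h2
      exact Or.inl ⟨Or.inr rfl, by simp [ee_apply]⟩
  have s0 : SS (0 : Fin (1 + 1) → ZMod p) := Or.inl rfl
  have s1 : ∀ j, SS (ee j : Fin (1 + 1) → ZMod p) := fun j => Or.inr (Or.inl ⟨j, rfl⟩)
  have s2 : SS (ee 0 + ee 1 : Fin (1 + 1) → ZMod p) := Or.inr (Or.inr ⟨0, 1, rfl, rfl⟩)
  have n0 : ∀ j, τ 0 ≠ τ (ee j) := fun j h => by
    have h1 := congrFun (τ.injective h) j
    rw [ee_apply, if_pos rfl] at h1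
    exact zero_ne_one h1
  obtain ⟨q1, q2, q3⟩ := quad (two_ne hp) (SS_coord (hS _ s0)) (SS_coord (hS _ s2))
    (SS_coord (hS _ (s1 0))) (SS_coord (hS _ (s1 1))) (by rw [aff_add τ haff]; abel) (n0 0) (n0 1)
  have hpar : ∀ y, SS y → (τ y 0 = τ y 1 ↔ (y 0 = y 1 ↔ τ 0 0 = τ 0 1)) := by
    intro y hy
    rcases hcl y hy with ⟨rfl | rfl, h⟩ | ⟨rfl | rfl, h⟩ <;> tauto
  have h00 : τ 0 0 = τ 0 1 := by
    by_contra hno
    have h1 : ∀ m : ℕ, SS ((τ ^ m) 0) ∧ ((τ ^ m) 0 0 = (τ ^ m) 0 1 ↔ Even m) := by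
      intro m
      induction m with
      | zero => exact ⟨s0, by simp⟩
      | succ m ih =>
        rw [pow_succ', Equiv.Perm.mul_apply, Nat.even_add_one]
        have h2 := hpar _ ih.1
        exact ⟨hS _ ih.1, by tauto⟩
    have h2 := (h1 k).2
    rw [hτ] at h2
    exact (Nat.not_even_iff_odd.2 hk) (h2.1 rfl)
  refine finish τ hk hτ haff
    (two_point τ hk hτ (fun y => SS y ∧ y 0 = y 1) ?_ 0 (ee 0 + ee 1) ⟨s0, rfl⟩ ?_)
    (two_point τ hk hτ (fun y => SS y ∧ y 0 ≠ y 1) ?_ (ee 0) (ee 1)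
      ⟨s1 0, by simp [ee_apply]⟩ ?_) hS v
  · rintro y ⟨h1, h2⟩
    have h3 := hpar y h1
    exact ⟨hS y h1, by tauto⟩
  · rintro y ⟨h1, h2⟩
    have h3 := hcl y h1
    tauto
  · rintro y ⟨h1, h2⟩
    have h3 := hpar y h1
    exact ⟨hS y h1, by tauto⟩
  · rintro y ⟨h1, h2⟩
    have h3 := hcl y h1
    tauto

theorem rigid2 [Fact p.Prime] (hp : p ≠ 2) (τ : Equiv.Perm (Fin (d + 1) → ZMod p)) {k : ℕ}
    (hk : Odd k) (hτ : τ ^ k = 1) (haff : ∀ v, ∃ v', ∀ w, τ (v + w) = v' + τ w)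
    (hS : ∀ y, S2 y → S2 (τ y)) (v : Fin (d + 1) → ZMod p) : τ v = v := by
  by_cases hd : 2 ≤ d
  · exact rigid_big τ hp hd hk hτ haff hS v
  have hS' : ∀ y, SS y → SS (τ y) := fun y hy => (hS y (Or.inl hy)).resolve_right fun h => hd h.1
  rcases d with _ | _ | d
  · exact rigid_one τ hk hτ haff hS' v
  · exact rigid_two hp τ hk hτ haff hS' v
  · omega

end Pool.Agent.Work.MP_2fb0b3_al.Hedge
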