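import Mathlib
import Pool.Agent.Work.MP_2fb0b3_al.Hedge.Aff

/-! A small subset of a vector space over the field with two elements that no nontrivial affine
permutation of order prime to 6 preserves. -/

namespace Pool.Agent.Work.MP_2fb0b3_al.Hedge

open Pool.Agent.Work.MP_2fb0b3_al

lemma four_fix {X : Type*} [Finite X] (σ : Equiv.Perm X) {k : ℕ} (hk : Nat.Coprime k 6)
    (hσ : σ ^ k = 1) (B : Set X) (hB : B.ncard ≤ 4) (h : ∀ x ∈ B, σ x ∈ B) {x : X}
    (hx : x ∈ B) : σ x = x := by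
  have hm : ∀ n : ℕ, σ^[n] x ∈ B := by
    intro n
    induction n with
    | zero => exact hx
    | succ n ih =>
      rw [Function.iterate_succ_apply']
      exact h _ ih
  have key : ∀ i j : ℕ, i < j → j < 5 → σ^[i] x = σ^[j] x → σ x = x := by
    intro i j h1 h2 h3
    have h4 : Function.IsPeriodicPt σ (j - i) x := by
      apply σ.injective.iterate i
      rw [← Function.iterate_add_apply, Nat.add_sub_cancel' h1.le, h3]
    have h5 : Function.IsPeriodicPt σ k x := by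
      show σ^[k] x = x
      rw [← Equiv.Perm.coe_pow, hσ]
      rfl
    have h6 := h4.gcd h5
    have h7 : Nat.Coprime (j - i) k := by
      refine Nat.Coprime.coprime_dvd_left (k := 6 ^ 2) ?_ (hk.symm.pow_left 2)
      have h8 : j - i = 1 ∨ j - i = 2 ∨ j - i = 3 ∨ j - i = 4 := by omega
      rcases h8 with h8 | h8 | h8 | h8 <;> rw [h8] <;> decide
    rwa [h7.gcd_eq_one] at h6
  have := Fintype.ofFinite B
  obtain ⟨i, j, hij, e⟩ := Fintype.exists_ne_map_eq_of_card_lt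
    (fun i : Fin 5 => (⟨_, hm i⟩ : B)) (by
      rw [← Nat.card_eq_fintype_card, Nat.card_coe_set_eq, Fintype.card_fin]
      omega)
  have e' := congrArg Subtype.val e
  rcases lt_or_gt_of_ne hij with h1 | h1
  · exact key i j h1 j.2 e'
  · exact key j i h1 i.2 e'.symm

lemma four_point {X : Type*} [Finite X] (σ : Equiv.Perm X) {k : ℕ} (hk : Nat.Coprime k 6)
    (hσ : σ ^ k = 1) (P : X → Prop) (hP : ∀ y, P y → P (σ y)) {x : X} (a b c e : X) (hx : P x)
    (h4 : ∀ y, P y → y = a ∨ y = b ∨ y = c ∨ y = e) : σ x = x := by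
  refine four_fix σ hk hσ {y | P y} ((Set.ncard_le_ncard (t := {a, b, c, e}) h4).trans ?_) hP hx
  refine (Set.ncard_insert_le _ _).trans (Nat.succ_le_succ ((Set.ncard_insert_le _ _).trans
    (Nat.succ_le_succ ((Set.ncard_insert_le _ _).trans ?_))))
  simp

lemma odd_of_six {k : ℕ} (hk : Nat.Coprime k 6) : Odd k :=
  Nat.coprime_two_right.1 (hk.coprime_dvd_right (by decide))

variable {d : ℕ}

lemma self_add (v : Fin (d + 1) → ZMod 2) : v + v = 0 := by
  funext t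
  exact CharTwo.add_self_eq_zero _

lemma ind_sum {a b a' b' a'' b'' : ℕ}
    (e : (ind a b + ind a' b' : Fin (d + 1) → ZMod 2) = ind a'' b'') (t : ℕ) (ht : t ≤ d) :
    (t = a'' ∨ t = b'') ↔ ¬ ((t = a ∨ t = b) ↔ (t = a' ∨ t = b')) := by
  have h := congrFun e ⟨t, by omega⟩
  simp only [Pi.add_apply, ind] at h
  split_ifs at h with h1 h2 h3 h3 h2 h3 h3 <;> tauto

lemma tri {a b a' b' a'' b'' : ℕ} (hb : b ≤ d) (hb' : b' ≤ d) (hb'' : b'' ≤ d)
    (h : b = a ∨ b = a + 1) (h' : b' = a' ∨ b' = a' + 1) (h'' : b'' = a'' ∨ b'' = a'' + 1)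
    (e : (ind a b + ind a' b' : Fin (d + 1) → ZMod 2) = ind a'' b'') :
    (b = a ∧ b' = a' ∧ (a' = a + 1 ∨ a = a' + 1)) ∨ (b = a ∧ b' = a' + 1 ∧ (a = a' ∨ a = b')) ∨
      (b' = a' ∧ b = a + 1 ∧ (a' = a ∨ a' = b)) := by
  have k1 := ind_sum e a (by omega)
  have k2 := ind_sum e b hb
  have k3 := ind_sum e a' (by omega)
  have k4 := ind_sum e b' hb'
  have k5 := ind_sum e a'' (by omega)
  have k6 := ind_sum e b'' hb''
  clear e
  grind

lemma ind_SS {a b : ℕ} (hb : b ≤ d) (h : b = a ∨ b = a + 1) :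
    SS (ind a b : Fin (d + 1) → ZMod 2) := by
  rcases h with rfl | rfl
  · exact Or.inr (Or.inl ⟨⟨b, by omega⟩, (ee_ind ⟨b, by omega⟩).symm⟩)
  · exact Or.inr (Or.inr ⟨⟨a, by omega⟩, ⟨a + 1, by omega⟩, rfl,
      (ee_add_ind ⟨a, by omega⟩ ⟨a + 1, by omega⟩ rfl).symm⟩)

lemma ind_inj {a b a' b' : ℕ} (hb : b ≤ d) (hb' : b' ≤ d) (h : b = a ∨ b = a + 1)
    (h' : b' = a' ∨ b' = a' + 1) (e : (ind a b : Fin (d + 1) → ZMod 2) = ind a' b') :
    a = a' ∧ b = b' := by
  have key : ∀ t : ℕ, t ≤ d → ((t = a ∨ t = b) ↔ (t = a' ∨ t = b')) := by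
    intro t ht
    have h1 := congrFun e ⟨t, by omega⟩
    simp only [ind] at h1
    split_ifs at h1 with h2 h3 h3 <;> tauto
  have k1 := key a (by omega)
  have k2 := key b hb
  have k3 := key a' (by omega)
  have k4 := key b' hb'
  clear key e
  grind

lemma ind_ne_zero {a b : ℕ} (hb : b ≤ d) : (ind a b : Fin (d + 1) → ZMod 2) ≠ 0 := by
  intro e
  have h1 := congrFun e ⟨b, by omega⟩
  simp [ind] at h1

lemma ind_add_up {a : ℕ} : (ind a a + ind (a + 1) (a + 1) : Fin (d + 1) → ZMod 2) =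
    ind a (a + 1) := by
  funext t
  simp only [Pi.add_apply, ind]
  split_ifs <;> first | omega | decide

/-- `u` is the difference of three disjoint pairs of points of `SS`. -/
def Rich (u : Fin (d + 1) → ZMod 2) : Prop :=
  u ≠ 0 ∧ ∃ z : Fin 3 → Fin (d + 1) → ZMod 2, (∀ i, SS (z i) ∧ SS (z i + u)) ∧
    ∀ i j, i ≠ j → z i ≠ z j ∧ z i ≠ z j + u

lemma rich_ind {a : ℕ} (h : a + 2 ≤ d) :
    Rich (ind (a + 1) (a + 1) : Fin (d + 1) → ZMod 2) := by
  have e1 : (ind (a + 2) (a + 2) + ind (a + 1) (a + 1) : Fin (d + 1) → ZMod 2) =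
      ind (a + 1) (a + 2) := (add_comm _ _).trans ind_add_up
  have n : ∀ {a b a' b' : ℕ}, b ≤ d → b' ≤ d → (b = a ∨ b = a + 1) → (b' = a' ∨ b' = a' + 1) →
      ¬ (a = a' ∧ b = b') → (ind a b : Fin (d + 1) → ZMod 2) ≠ ind a' b' :=
    fun h1 h2 h3 h4 h5 e => h5 (ind_inj h1 h2 h3 h4 e)
  refine ⟨ind_ne_zero (by omega), ![0, ind a a, ind (a + 2) (a + 2)], fun i => ?_,
    fun i j hij => ?_⟩
  · fin_cases i
    · exact ⟨Or.inl rfl, by simpa using ind_SS (by omega) (Or.inl rfl)⟩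
    · exact ⟨ind_SS (by omega) (Or.inl rfl), by
        simpa [ind_add_up] using ind_SS (by omega) (Or.inr rfl)⟩
    · exact ⟨ind_SS (by omega) (Or.inl rfl), by
        simpa [e1] using ind_SS (by omega) (Or.inr rfl)⟩
  · fin_cases i <;> fin_cases j <;> first | exact absurd rfl hij | skip
    all_goals
      simp only [Fin.zero_eta, Fin.mk_one, Fin.reduceFinMk, Matrix.cons_val, zero_add, e1,
        ind_add_up]
      constructor <;> first
        | exact (ind_ne_zero (by omega)).symm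
        | exact ind_ne_zero (by omega)
        | exact n (by omega) (by omega) (by omega) (by omega) (by omega)

lemma rich_imp {u : Fin (d + 1) → ZMod 2} (h : Rich u) :
    ∃ a : ℕ, a + 2 ≤ d ∧ u = ind (a + 1) (a + 1) := by
  classical
  obtain ⟨hu, z, hz, hne⟩ := h
  have hex : ∃ t : ℕ, ∃ ht : t < d + 1, u ⟨t, ht⟩ ≠ 0 := by
    by_contra h
    push Not at h
    exact hu (funext fun t => h t.1 t.2)
  obtain ⟨hl, hlo⟩ := Nat.find_spec hex
  have hmin : ∀ t (ht : t < d + 1), t < Nat.find hex → u ⟨t, ht⟩ = 0 := fun t ht h => by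
    by_contra h1
    exact Nat.find_min hex h ⟨ht, h1⟩
  generalize Nat.find hex = l at hl hlo hmin
  have z2 : ∀ x : ZMod 2, x ≠ 0 → x = 1 := by decide
  have z3 : ∀ x : ZMod 2, x = 1 ∨ x + 1 = 1 := by decide
  have hu1 := z2 _ hlo
  have key : ∀ w, SS w → SS (w + u) → w ⟨l, hl⟩ = 1 → w = ind l l ∨
      (l + 1 ≤ d ∧ w = ind l (l + 1)) ∨ ∃ a, l = a + 1 ∧ w = ind a l ∧ u = ind l l := by
    intro w h1 h2 h3
    rcases SS_ind h1 with rfl | ⟨a, b, hb, hab, rfl⟩
    · exact absurd h3 (by simp)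
    have h4 : l = a ∨ l = b := by
      by_contra h5
      simp only [ind, if_neg h5] at h3
      exact zero_ne_one h3
    by_cases h5 : l = a
    · subst h5
      rcases hab with rfl | rfl
      · exact Or.inl rfl
      · exact Or.inr (Or.inl ⟨hb, rfl⟩)
    have h6 : l = a + 1 := by omega
    have h7 : b = a + 1 := by omega
    subst h6 h7
    refine Or.inr (Or.inr ⟨a, rfl, rfl, ?_⟩)
    have c1 : (ind a (a + 1) + u : Fin (d + 1) → ZMod 2) ⟨a, by omega⟩ = 1 := by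
      rw [Pi.add_apply, hmin a _ (by omega)]
      simp [ind]
    have c2 : (ind a (a + 1) + u : Fin (d + 1) → ZMod 2) ⟨a + 1, hl⟩ = 0 := by
      rw [Pi.add_apply, hu1, h3]
      decide
    rcases SS_ind h2 with e | ⟨a', b', hb', hab', e⟩
    · rw [e] at c1
      exact absurd c1 (by simp)
    rw [e] at c1 c2
    have d1 : a = a' ∨ a = b' := by
      by_contra h8
      simp only [ind, if_neg h8] at c1
      exact zero_ne_one c1
    have d2 : ¬ (a + 1 = a' ∨ a + 1 = b') := fun h8 => by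
      simp only [ind, if_pos h8] at c2
      exact one_ne_zero c2
    have d3 : a' = a := by
      by_contra h8
      have c3 := congrFun e ⟨a', by omega⟩
      rw [Pi.add_apply, hmin a' _ (by omega)] at c3
      simp only [ind, add_zero, true_or, if_true] at c3
      rw [if_neg (by omega)] at c3
      exact zero_ne_one c3
    have d4 : b' = a := by omega
    subst d3 d4
    rw [← ind_add_up, add_assoc] at e
    have e2 := add_eq_left.1 e
    rw [← add_zero u, ← self_add (ind (b' + 1) (b' + 1)), ← add_assoc, add_comm u, e2, zero_add]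
  have pick : ∀ i, ∃ w, (w = z i ∨ w = z i + u) ∧ (w = ind l l ∨
      (l + 1 ≤ d ∧ w = ind l (l + 1)) ∨ ∃ a, l = a + 1 ∧ w = ind a l ∧ u = ind l l) := by
    intro i
    rcases z3 (z i ⟨l, hl⟩) with h | h
    · exact ⟨_, Or.inl rfl, key _ (hz i).1 (hz i).2 h⟩
    · refine ⟨_, Or.inr rfl, key _ (hz i).2 ?_ (by rw [Pi.add_apply, hu1, h])⟩
      rw [add_assoc, self_add, add_zero]
      exact (hz i).1
  choose w hw1 hw2 using pick
  have hd : ∀ i j, i ≠ j → w i ≠ w j := by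
    intro i j hij e
    rcases hw1 i with h1 | h1 <;> rcases hw1 j with h2 | h2 <;> rw [h1, h2] at e
    · exact (hne i j hij).1 e
    · exact (hne i j hij).2 e
    · exact (hne j i hij.symm).2 e.symm
    · exact (hne i j hij).1 (add_right_cancel e)
  have n01 := hd 0 1 (by decide)
  have n02 := hd 0 2 (by decide)
  have n12 := hd 1 2 (by decide)
  by_contra hno
  have hc : l + 1 ≤ d → ∀ a, l = a + 1 → u ≠ ind l l := by
    rintro h a rfl e
    exact hno ⟨a, h, e⟩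
  have hw3 : ∀ i, w i = ind l l ∨ (l + 1 ≤ d ∧ w i = ind l (l + 1)) ∨
      (¬ l + 1 ≤ d ∧ w i = ind (l - 1) l) := fun i => by
    rcases hw2 i with h | h | ⟨a, h1, h2, h3⟩
    · exact Or.inl h
    · exact Or.inr (Or.inl h)
    · exact Or.inr (Or.inr ⟨fun h => hc h a h1 h3, by rw [h2, h1, Nat.add_sub_cancel]⟩)
  have w0 := hw3 0
  have w1 := hw3 1
  have w2 := hw3 2
  generalize (ind l l : Fin (d + 1) → ZMod 2) = x at w0 w1 w2
  generalize (ind l (l + 1) : Fin (d + 1) → ZMod 2) = y at w0 w1 w2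
  generalize (ind (l - 1) l : Fin (d + 1) → ZMod 2) = t at w0 w1 w2
  generalize w 0 = v0 at w0 n01 n02
  generalize w 1 = v1 at w1 n01 n12
  generalize w 2 = v2 at w2 n02 n12
  rcases w0 with rfl | ⟨h0, rfl⟩ | ⟨h0, rfl⟩ <;> rcases w1 with rfl | ⟨h1, rfl⟩ | ⟨h1, rfl⟩ <;>
    rcases w2 with rfl | ⟨h2, rfl⟩ | ⟨h2, rfl⟩ <;> contradiction

section
variable (τ : Equiv.Perm (Fin (d + 1) → ZMod 2)) {k : ℕ}

lemma rich_map (haff : ∀ v, ∃ v', ∀ w, τ (v + w) = v' + τ w) (hS : ∀ y, SS y → SS (τ y))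
    {u : Fin (d + 1) → ZMod 2} (h : Rich u) : Rich (τ u - τ 0) := by
  obtain ⟨hu, z, hz, hne⟩ := h
  have e : ∀ x, τ x + (τ u - τ 0) = τ (x + u) := fun x => by
    rw [aff_add τ haff, add_sub_assoc]
  refine ⟨fun h => hu (τ.injective (sub_eq_zero.1 h)), fun i => τ (z i),
    fun i => ⟨hS _ (hz i).1, ?_⟩, fun i j hij => ⟨fun h => (hne i j hij).1 (τ.injective h), ?_⟩⟩
  · rw [e]
    exact hS _ (hz i).2
  · rw [e]
    exact fun h => (hne i j hij).2 (τ.injective h)

lemma rigid_five (hd : 3 ≤ d) (hk : Nat.Coprime k 6) (hτ : τ ^ k = 1)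
    (haff : ∀ v, ∃ v', ∀ w, τ (v + w) = v' + τ w) (hS : ∀ y, SS y → SS (τ y))
    (v : Fin (d + 1) → ZMod 2) : τ v = v := by
  have hA : Function.Injective fun u : {u : Fin (d + 1) → ZMod 2 // Rich u} =>
      (⟨τ u - τ 0, rich_map τ haff hS u.2⟩ : {u // Rich u}) := fun u w h =>
    Subtype.ext (τ.injective (sub_left_injective (congrArg Subtype.val h)))
  have hB : ∀ u, Rich u → ∃ u', Rich u' ∧ τ u' - τ 0 = u := fun u hu => by
    obtain ⟨u', h⟩ := Finite.surjective_of_injective hA ⟨u, hu⟩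
    exact ⟨u', u'.2, congrArg Subtype.val h⟩
  have h0 : τ 0 = 0 := by
    refine four_point τ hk hτ (fun x => SS x ∧ ∀ u, Rich u → SS (x + u)) ?_
      0 (ind 1 1) (ind 2 2) (ind 1 2) ⟨Or.inl rfl, fun u hu => ?_⟩ ?_
    · rintro x ⟨h1, h2⟩
      refine ⟨hS x h1, fun u hu => ?_⟩
      obtain ⟨u', h3, rfl⟩ := hB u hu
      rw [← add_sub_assoc, ← aff_add τ haff]
      exact hS _ (h2 u' h3)
    · obtain ⟨a, ha, rfl⟩ := rich_imp hu
      rw [zero_add]
      exact ind_SS (by omega) (Or.inl rfl)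
    · rintro x ⟨h1, h2⟩
      rcases SS_ind h1 with rfl | ⟨a, b, hb, hab, rfl⟩
      · exact Or.inl rfl
      have t : ∀ c, c + 2 ≤ d → (a = c + 1 ∧ b = c + 1) ∨ (b = a ∧ (c = a ∨ a = c + 2)) ∨
          (b = a + 1 ∧ (c + 1 = a ∨ c = a)) := by
        intro c hc
        rcases SS_ind (h2 _ (rich_ind hc)) with e | ⟨a', b', hb', hab', e⟩
        · rw [← self_add (ind (c + 1) (c + 1))] at e
          exact Or.inl (ind_inj hb (by omega) hab (Or.inl rfl) (add_right_cancel e))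
        · have := tri hb (by omega) hb' hab (Or.inl rfl) hab' e
          omega
      have t0 := t 0 (by omega)
      have t1 := t 1 (by omega)
      have t2 : (a = 1 ∧ b = 1) ∨ (a = 2 ∧ b = 2) ∨ (a = 1 ∧ b = 2) := by omega
      rcases t2 with ⟨rfl, rfl⟩ | ⟨rfl, rfl⟩ | ⟨rfl, rfl⟩ <;> simp
  have hR : ∀ u, Rich (τ u) → Rich u := fun u hu => by
    obtain ⟨u', h1, h2⟩ := hB _ hu
    rw [h0, sub_zero] at h2
    rwa [← τ.injective h2]
  have hz : ∀ x, x ≠ 0 → τ x ≠ 0 := fun x hx e => hx (τ.injective (e.trans h0.symm))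
  have nr : ∀ b, b ≤ 1 → ¬ Rich (ind 0 b : Fin (d + 1) → ZMod 2) := fun b hb h => by
    obtain ⟨a, ha, e⟩ := rich_imp h
    have := ind_inj (by omega) (by omega) (by omega) (Or.inl rfl) e
    omega
  have h1 : τ (ind 0 0) = ind 0 0 := by
    refine four_point τ hk hτ (fun x => SS x ∧ x ≠ 0 ∧ ¬ Rich x ∧
      ∃ y, SS y ∧ y ≠ 0 ∧ ¬ Rich y ∧ y ≠ x ∧ SS (x + y)) ?_
      (ind 0 0) (ind 0 1) (ind d d) (ind (d - 1) d) ⟨ind_SS (by omega) (Or.inl rfl),
        ind_ne_zero (by omega), nr 0 (by omega), ind 0 1, ind_SS (by omega) (Or.inr rfl),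
        ind_ne_zero (by omega), nr 1 le_rfl, fun e => ?_, ?_⟩ ?_
    · rintro x ⟨a1, a2, a3, y, a4, a5, a6, a7, a8⟩
      refine ⟨hS x a1, hz x a2, mt (hR x) a3, τ y, hS y a4, hz y a5, mt (hR y) a6,
        fun e => a7 (τ.injective e), ?_⟩
      have h2 := hS _ a8
      rwa [aff_add τ haff, h0, sub_zero] at h2
    · have := ind_inj (by omega) (by omega) (Or.inr rfl) (Or.inl rfl) e
      omega
    · rw [← ind_add_up (a := 0), ← add_assoc, self_add, zero_add]
      exact ind_SS (by omega) (Or.inl rfl)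
    · rintro x ⟨a1, a2, a3, y, a4, a5, a6, a7, a8⟩
      obtain ⟨a, b, hb, hab, rfl⟩ := (SS_ind a1).resolve_left a2
      obtain ⟨a', b', hb', hab', rfl⟩ := (SS_ind a4).resolve_left a5
      obtain ⟨a'', b'', hb'', hab'', e⟩ := (SS_ind a8).resolve_left fun e => a7 (by
        rw [← self_add (ind a b)] at e
        exact add_left_cancel e)
      have t := tri hb hb' hb'' hab hab' hab'' e
      have r : ∀ a b : ℕ, b ≤ d → ¬ Rich (ind a b : Fin (d + 1) → ZMod 2) →
          b = a → a = 0 ∨ a = d := by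
        rintro (_ | a) b hb h rfl
        · exact Or.inl rfl
        · by_contra h2
          exact h (rich_ind (by omega))
      have r1 := r a b hb a3
      have r2 := r a' b' hb' a6
      have t2 : (a = 0 ∧ b = 0) ∨ (a = 0 ∧ b = 1) ∨ (a = d ∧ b = d) ∨ (a = d - 1 ∧ b = d) := by
        omega
      rcases t2 with ⟨rfl, rfl⟩ | ⟨rfl, rfl⟩ | ⟨rfl, rfl⟩ | ⟨rfl, rfl⟩ <;> simp
  exact finish τ (odd_of_six hk) hτ haff h0 (by rw [ee_ind]; exact h1) hS v

lemma fix_low (haff : ∀ v, ∃ v', ∀ w, τ (v + w) = v' + τ w) (h0 : τ 0 = 0)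
    (y : Fin (d + 1) → ZMod 2) (he : ∀ j, y j ≠ 0 → τ (ee j) = ee j) : τ y = y := by
  let f : (Fin (d + 1) → ZMod 2) →+ (Fin (d + 1) → ZMod 2) :=
    AddMonoidHom.mk' τ fun u w => by rw [aff_add τ haff, h0, sub_zero]
  have hf : ∀ u, f u = τ u := fun _ => rfl
  have e : y = ∑ j, y j • ee j := by
    funext t
    simp [ee, Finset.sum_apply, Pi.single_apply]
  rw [← hf]
  conv_lhs => rw [e]
  conv_rhs => rw [e]
  rw [map_sum]
  refine Finset.sum_congr rfl fun j _ => ?_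
  rw [ZMod.map_smul, hf]
  by_cases h : y j = 0
  · rw [h, zero_smul, zero_smul]
  · rw [he j h]

lemma rigid_hyp (hk : Odd k) (hτ : τ ^ k = 1) (haff : ∀ v, ∃ v', ∀ w, τ (v + w) = v' + τ w)
    (h0 : τ 0 = 0) (he : ∀ j : Fin d, τ (ee j.castSucc) = ee j.castSucc)
    (v : Fin (d + 1) → ZMod 2) : τ v = v := by
  have hH : ∀ y : Fin (d + 1) → ZMod 2, y (Fin.last d) = 0 → τ y = y := fun y hy =>
    fix_low τ haff h0 y fun j hj => by
      rcases Fin.eq_castSucc_or_eq_last j with ⟨i, rfl⟩ | rfl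
      · exact he i
      · exact absurd hy hj
  by_cases hv : τ v (Fin.last d) = 0
  · exact τ.injective (hH _ hv)
  by_cases hv' : v (Fin.last d) = 0
  · exact hH _ hv'
  have z2 : ∀ x y : ZMod 2, x ≠ 0 → y ≠ 0 → x + y = 0 := by decide
  have h1 := hH (τ v + v) (z2 _ _ hv hv')
  rw [aff_add τ haff, h0, sub_zero, add_comm (τ v)] at h1
  refine two_point τ hk hτ (fun y => y = v ∨ y = τ v) ?_ v (τ v) (Or.inl rfl) fun _ h => h
  rintro y (rfl | rfl)
  · exact Or.inr rfl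
  · exact Or.inl (add_right_cancel h1)

end

lemma SS_card : {v : Fin (d + 1) → ZMod 2 | SS v}.ncard ≤ 2 * d + 2 := by
  have h : {v : Fin (d + 1) → ZMod 2 | SS v} ⊆ insert 0 ((Set.range fun j : Fin (d + 1) => ee j) ∪
      Set.range fun j : Fin d => ind j (j + 1)) := by
    rintro v (rfl | ⟨j, rfl⟩ | ⟨j, l, h, rfl⟩)
    · exact Or.inl rfl
    · exact Or.inr (Or.inl ⟨j, rfl⟩)
    · refine Or.inr (Or.inr ⟨⟨j, by omega⟩, ?_⟩)
      rw [ee_add_ind j l h, h]
  have h1 := Set.ncard_le_ncard h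
  have h2 := Set.ncard_insert_le (0 : Fin (d + 1) → ZMod 2)
    ((Set.range fun j : Fin (d + 1) => ee j) ∪ Set.range fun j : Fin d => ind j (j + 1))
  have h3 := Set.ncard_union_le (Set.range fun j : Fin (d + 1) => (ee j : Fin (d + 1) → ZMod 2))
    (Set.range fun j : Fin d => ind j (j + 1))
  have h4 : (Set.range fun j : Fin (d + 1) => (ee j : Fin (d + 1) → ZMod 2)).ncard ≤ d + 1 :=
    (Finite.card_range_le fun j : Fin (d + 1) => (ee j : Fin (d + 1) → ZMod 2)).trans_eq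
      (Nat.card_fin _)
  have h5 : (Set.range fun j : Fin d => (ind j (j + 1) : Fin (d + 1) → ZMod 2)).ncard ≤ d :=
    (Finite.card_range_le fun j : Fin d => (ind j (j + 1) : Fin (d + 1) → ZMod 2)).trans_eq
      (Nat.card_fin _)
  omega

theorem rigid_even (d : ℕ) : ∃ S : Set (Fin (d + 1) → ZMod 2), 2 * S.ncard < 2 ^ (d + 1) ∧
    ∀ (τ : Equiv.Perm (Fin (d + 1) → ZMod 2)) (k : ℕ), Nat.Coprime k 6 → τ ^ k = 1 →
      (∀ v, ∃ v', ∀ w, τ (v + w) = v' + τ w) → (∀ y ∈ S, τ y ∈ S) → ∀ v, τ v = v := by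
  by_cases h1 : d ≤ 1
  · refine ⟨∅, by simp, fun τ k hk hτ _ _ v => four_fix τ hk hτ Set.univ ?_
      (fun _ _ => trivial) trivial⟩
    rw [Set.ncard_univ, Nat.card_fun, Nat.card_zmod, Nat.card_fin]
    interval_cases d <;> norm_num
  by_cases h2 : d ≤ 3
  · have h3 : (insert 0 (Set.range fun j : Fin d =>
        (ee j.castSucc : Fin (d + 1) → ZMod 2))).ncard ≤ d + 1 :=
      (Set.ncard_insert_le _ _).trans (Nat.succ_le_succ ((Finite.card_range_le fun j : Fin d =>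
        (ee j.castSucc : Fin (d + 1) → ZMod 2)).trans_eq (Nat.card_fin _)))
    refine ⟨_, lt_of_le_of_lt (Nat.mul_le_mul_left 2 h3) ?_, fun τ k hk hτ haff hS v => ?_⟩
    · have h4 : d = 2 ∨ d = 3 := by omega
      rcases h4 with rfl | rfl <;> norm_num
    · exact rigid_hyp τ (odd_of_six hk) hτ haff
        (four_fix τ hk hτ _ (by omega) hS (Or.inl rfl))
        (fun j => four_fix τ hk hτ _ (by omega) hS (Or.inr ⟨j, rfl⟩)) v
  · refine ⟨{v | SS v}, lt_of_le_of_lt (Nat.mul_le_mul_left 2 SS_card) ?_,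
      fun τ k hk hτ haff hS v => rigid_five τ (by omega) hk hτ haff hS v⟩
    obtain ⟨m, rfl⟩ : ∃ m, d = m + 4 := ⟨d - 4, by omega⟩
    have h3 : m < 2 ^ m := Nat.lt_two_pow_self
    rw [pow_add, pow_add]
    omega

end Pool.Agent.Work.MP_2fb0b3_al.Hedge
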