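import Mathlib
import Pool.Agent.Work.MP_2fb0b3_al.Main
import Pool.Agent.Work.MP_2fb0b3_al.Hedge.Aff

/-! Two colours suffice when no orbit length other than 4 is divisible by 4. -/

namespace Pool.Agent.Work.MP_2fb0b3_al.Hedge

open MulAction Pool.Agent.Work.MP_2fb0b3_al

/-- Number of points of a given colour. -/
noncomputable def cn {X : Type*} (B : Set X) (c : X → Fin 2) (i : Fin 2) : ℕ :=
  {x | x ∈ B ∧ c x = i}.ncard

lemma cn_total {X : Type*} [Finite X] (B : Set X) (c : X → Fin 2) :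
    cn B c 0 + cn B c 1 = B.ncard := by
  unfold cn
  rw [← Set.ncard_union_eq]
  · congr 1
    ext x
    simp only [Set.mem_union, Set.mem_ofPred_eq]
    generalize c x = i
    fin_cases i <;> simp
  · rw [Set.disjoint_left]
    rintro x ⟨-, h1⟩ ⟨-, h2⟩
    rw [h1] at h2
    exact absurd h2 (by decide)

lemma small_fix {X : Type*} [Finite X] (σ : Equiv.Perm X) {k : ℕ} (hk : Odd k) (hσ : σ ^ k = 1)
    (B : Set X) (hB : B.ncard ≤ 2) (h : ∀ x ∈ B, σ x ∈ B) {x : X} (hx : x ∈ B) : σ x = x := by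
  by_contra hne
  refine hne (two_point σ hk hσ (· ∈ B) h x (σ x) hx fun y hy => ?_)
  by_contra hy'
  rw [not_or] at hy'
  have h3 : ({x, σ x, y} : Set X).ncard = 3 :=
    Set.ncard_eq_three.2 ⟨x, σ x, y, Ne.symm hne, Ne.symm hy'.1, Ne.symm hy'.2, rfl⟩
  have h4 : ({x, σ x, y} : Set X) ⊆ B := by
    rintro z (rfl | rfl | rfl)
    · exact hx
    · exact h _ hx
    · exact hy
  have := Set.ncard_le_ncard h4
  omega

/-- The colouring `c` of `B` is preserved by no nontrivial `H`-affine permutation of odd order. -/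
def Rig {Ω : Type*} (H : Type*) [Group H] [MulAction H Ω] (B : Set Ω) (c : Ω → Fin 2) : Prop :=
  ∀ (σ : Equiv.Perm Ω) (k : ℕ), Odd k → σ ^ k = 1 →
    (∀ h : H, ∃ h' : H, ∀ x, σ (h • x) = h' • σ x) →
    (∀ x ∈ B, σ x ∈ B) → (∀ x ∈ B, c (σ x) = c x) → ∀ x ∈ B, σ x = x

lemma block_small {H Ω : Type*} [Group H] [MulAction H Ω] [Finite Ω] (B : Set Ω)
    (h0 : B.Nonempty) (h2 : B.ncard ≤ 2) : ∃ c : Ω → Fin 2, cn B c 0 ≠ cn B c 1 ∧ Rig H B c := by
  refine ⟨fun _ => 0, ?_, fun σ k hk hσ _ hB _ x hx => small_fix σ hk hσ B h2 hB hx⟩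
  have h1 := cn_total B fun _ => (0 : Fin 2)
  have h3 : cn B (fun _ => (0 : Fin 2)) 1 = 0 := by simp [cn]
  have h4 := (Set.ncard_pos (s := B)).2 h0
  omega

lemma block_four {H Ω : Type*} [Group H] [MulAction H Ω] [Finite Ω] (B : Set Ω)
    (h4 : B.ncard = 4) : ∃ c : Ω → Fin 2, Rig H B c := by
  classical
  obtain ⟨A, hAB, hA⟩ := Set.exists_subset_card_eq (s := B) (n := 2) (by omega)
  refine ⟨fun x => if x ∈ A then 0 else 1, fun σ k hk hσ _ hB hc x hx => ?_⟩
  have key : ∀ y ∈ B, (σ y ∈ A ↔ y ∈ A) := by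
    intro y hy
    have h := hc y hy
    by_cases h1 : σ y ∈ A <;> by_cases h2 : y ∈ A <;> simp_all
  by_cases hxA : x ∈ A
  · exact small_fix σ hk hσ A hA.le (fun y hy => (key y (hAB hy)).2 hy) hxA
  · refine small_fix σ hk hσ (B \ A) ?_ (fun y hy => ⟨hB y hy.1, mt (key y hy.1).1 hy.2⟩) ⟨hx, hxA⟩
    rw [Set.ncard_sdiff hAB]
    omega

lemma orbit_pow {p : ℕ} [Fact p.Prime] {H Ω : Type*} [Group H] [Finite Ω] [MulAction H Ω]
    (hexp : ∀ h : H, h ^ p = 1) (x : Ω) : ∃ n, (orbit H x).ncard = p ^ n := by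
  have h : IsPGroup p H := fun g => ⟨1, by rw [pow_one, hexp]⟩
  exact h.card_orbit x

lemma block_odd {p : ℕ} [hp : Fact p.Prime] (hp2 : p ≠ 2) {H Ω : Type*} [Group H] [Finite H]
    [Finite Ω] [MulAction H Ω] (hcomm : ∀ a b : H, a * b = b * a) (hexp : ∀ h : H, h ^ p = 1)
    (x₀ : Ω) : ∃ c : Ω → Fin 2, cn (orbit H x₀) c 0 ≠ cn (orbit H x₀) c 1 ∧
      Rig H (orbit H x₀) c := by
  classical
  suffices h : ∃ c : Ω → Fin 2, Rig H (orbit H x₀) c by
    obtain ⟨c, hc⟩ := h
    refine ⟨c, fun h => ?_, hc⟩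
    obtain ⟨n, hn⟩ := orbit_pow hexp x₀
    have h1 := cn_total (orbit H x₀) c
    obtain ⟨m, hm⟩ := (hp.out.odd_of_ne_two hp2).pow (n := n)
    omega
  let _ : CommGroup H := { ‹Group H› with mul_comm := hcomm }
  obtain ⟨n, β, hinj, hrange, h1, h2⟩ := coords (p := p) (H := H) hexp x₀
  rw [← hrange]
  rcases n with _ | d
  · refine ⟨fun _ => 0, ?_⟩
    rintro σ k - - - hB - x ⟨v, rfl⟩
    obtain ⟨w, hw⟩ := hB _ ⟨v, rfl⟩
    rw [← hw, Subsingleton.elim w v]
  have hleft : ∀ v, Function.invFun β (β v) = v := Function.leftInverse_invFun hinj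
  refine ⟨fun x => if S2 (Function.invFun β x) then 0 else 1, ?_⟩
  rintro σ k hk hσ hnorm hB hc x ⟨v, rfl⟩
  let f : (Fin (d + 1) → ZMod p) → (Fin (d + 1) → ZMod p) :=
    fun v => Function.invFun β (σ (β v))
  have hf : ∀ v, β (f v) = σ (β v) := fun v => Function.invFun_eq (hB _ ⟨v, rfl⟩)
  have hfinj : Function.Injective f := by
    intro u w h
    apply hinj
    apply σ.injective
    rw [← hf, ← hf, h]
  let τ : Equiv.Perm (Fin (d + 1) → ZMod p) :=
    Equiv.ofBijective f (Finite.injective_iff_bijective.1 hfinj)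
  have hτ : ∀ v, β (τ v) = σ (β v) := hf
  have hpow : ∀ (m : ℕ) v, β ((τ ^ m) v) = (σ ^ m) (β v) := by
    intro m
    induction m with
    | zero => intro v; rfl
    | succ m ih =>
      intro v
      rw [pow_succ', pow_succ', Equiv.Perm.mul_apply, Equiv.Perm.mul_apply, hτ, ih]
  have := rigid2 hp2 τ hk (by
      ext1 v
      apply hinj
      rw [hpow, hσ]
      rfl)
    (by
      intro u
      obtain ⟨h, hh⟩ := h1 u
      obtain ⟨h', hh'⟩ := hnorm h
      obtain ⟨u', hu'⟩ := h2 h'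
      refine ⟨u', fun w => hinj ?_⟩
      rw [hτ, hh, hh', ← hτ, hu'])
    (by
      intro u hu
      have h3 := hc _ ⟨u, rfl⟩
      simp only at h3
      rw [← hτ, hleft, hleft, if_pos hu] at h3
      by_contra h4
      rw [if_neg h4] at h3
      exact absurd h3 (by decide)) v
  rw [← hτ, this]

/-- `i` is the majority colour. -/
def Maj (n : Fin 2 → ℕ) (i : Fin 2) : Prop := ∀ j, j ≠ i → n j < n i

lemma maj_unique {n : Fin 2 → ℕ} {i j : Fin 2} (hi : Maj n i) (hj : Maj n j) : i = j := by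
  by_contra h
  exact lt_asymm (hi j (Ne.symm h)) (hj i h)

lemma recolour {H Ω : Type*} [Group H] [MulAction H Ω] {B : Set Ω} {c : Ω → Fin 2}
    (h1 : cn B c 0 ≠ cn B c 1) (h2 : Rig H B c) (i : Fin 2) :
    ∃ c' : Ω → Fin 2, Maj (cn B c') i ∧ Rig H B c' := by
  obtain ⟨j, hj⟩ : ∃ j, Maj (cn B c) j := by
    rcases lt_or_gt_of_ne h1 with h | h
    · exact ⟨1, by simpa [Maj, Fin.forall_fin_two] using h⟩
    · exact ⟨0, by simpa [Maj, Fin.forall_fin_two] using h⟩
  let π : Equiv.Perm (Fin 2) := Equiv.swap j i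
  have e : ∀ l, cn B (fun x => π (c x)) l = cn B c (π.symm l) := by
    intro l
    unfold cn
    congr 1
    ext x
    simp only [Set.mem_ofPred_eq, Equiv.eq_symm_apply]
  have e1 : π.symm i = j := by simp [π]
  refine ⟨fun x => π (c x), fun l hl => ?_,
    fun σ k hk hσ h3 h4 h5 => h2 σ k hk hσ h3 h4 fun y hy => π.injective (h5 y hy)⟩
  rw [e, e, e1]
  exact hj _ fun h => hl (π.symm.injective (h.trans e1.symm))

lemma exists_elem_ab2 {G Ω : Type*} [Group G] [Group.IsSolvable G] [Finite Ω]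
    (φ : G →* Equiv.Perm Ω) (hφ : ∃ g, φ g ≠ 1) :
    ∃ p : ℕ, p.Prime ∧ ∃ H : Subgroup (Equiv.Perm Ω), (∀ a b : H, a * b = b * a) ∧
      (∀ a : H, a ^ p = 1) ∧ (∀ g : G, ∀ h ∈ H, φ g * h * (φ g)⁻¹ ∈ H) ∧
      (∀ h ∈ H, ∃ g, φ g = h) ∧ ∃ h ∈ H, h ≠ 1 := by
  classical
  have hex : ∃ k, (derivedSeries G k).map φ = ⊥ := by
    obtain ⟨k, hk⟩ := (inferInstance : Group.IsSolvable G).solvable
    exact ⟨k, by rw [hk, Subgroup.map_bot]⟩
  have hk := Nat.find_spec hex
  have hk0 : Nat.find hex ≠ 0 := by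
    intro h0
    rw [h0, derivedSeries_zero] at hk
    obtain ⟨g, hg⟩ := hφ
    exact hg (Subgroup.mem_bot.1 (hk ▸ Subgroup.mem_map_of_mem φ (Subgroup.mem_top g)))
  obtain ⟨j, hj⟩ := Nat.exists_eq_succ_of_ne_zero hk0
  have hM : (derivedSeries G j).map φ ≠ ⊥ := Nat.find_min hex (by omega)
  rw [hj, Nat.succ_eq_add_one, derivedSeries_succ, Subgroup.map_commutator] at hk
  set M := (derivedSeries G j).map φ with hMdef
  have hcomm : ∀ a ∈ M, ∀ b ∈ M, Commute a b := by
    intro a ha b hb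
    have := Subgroup.commutator_mem_commutator ha hb
    rw [hk, Subgroup.mem_bot] at this
    exact commutatorElement_eq_one_iff_commute.1 this
  obtain ⟨m, hm, hm1⟩ : ∃ m ∈ M, m ≠ 1 := by
    by_contra h
    push Not at h
    exact hM ((Subgroup.eq_bot_iff_forall M).2 h)
  have ho : orderOf m ≠ 1 := fun h => hm1 (orderOf_eq_one_iff.1 h)
  obtain ⟨p, hp, q, hq⟩ := Nat.exists_prime_and_dvd ho
  have hopos : 0 < orderOf m := orderOf_pos m
  let H : Subgroup (Equiv.Perm Ω) :=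
    { carrier := {a | a ∈ M ∧ a ^ p = 1}
      mul_mem' := by
        rintro a b ⟨ha, ha'⟩ ⟨hb, hb'⟩
        exact ⟨M.mul_mem ha hb, by rw [(hcomm a ha b hb).mul_pow, ha', hb', mul_one]⟩
      one_mem' := ⟨M.one_mem, one_pow _⟩
      inv_mem' := by
        rintro a ⟨ha, ha'⟩
        exact ⟨M.inv_mem ha, by rw [inv_pow, ha', inv_one]⟩ }
  refine ⟨p, hp, H, fun a b => Subtype.ext (hcomm a a.2.1 b b.2.1).eq,
    fun a => Subtype.ext a.2.2, ?_, ?_, m ^ q, ⟨M.pow_mem hm q, ?_⟩, ?_⟩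
  · rintro g h ⟨⟨a, ha, rfl⟩, hh⟩
    refine ⟨⟨g * a * g⁻¹, (derivedSeries_normal G j).conj_mem a ha g, by simp⟩, ?_⟩
    rw [conj_pow, hh, mul_one, mul_inv_cancel]
  · rintro h ⟨⟨a, -, rfl⟩, -⟩
    exact ⟨a, rfl⟩
  · rw [← pow_mul, mul_comm, ← hq, pow_orderOf_eq_one]
  · intro h
    have h1 := orderOf_dvd_of_pow_eq_one h
    have hq0 : 0 < q := Nat.pos_of_ne_zero (by rintro rfl; omega)
    have h2 := Nat.le_of_dvd hq0 h1
    have h3 := hp.two_le
    nlinarith

/-- The length of the orbit of `x`. -/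
noncomputable def len {G Ω : Type*} [Group G] (φ : G →* Equiv.Perm Ω) (x : Ω) : ℕ :=
  ((stabilizer (Equiv.Perm Ω) x).comap φ).index

universe u

theorem colouring2 {G : Type*} [Group G] [Group.IsSolvable G] :
    ∀ (n : ℕ) (Ω : Type u) [Finite Ω] (φ : G →* Equiv.Perm Ω), Nat.card Ω ≤ n →
      (∀ x, 4 ∣ len φ x → len φ x = 4) →
      ∃ γ : Ω → Fin 2, ∀ (g : G) (k : ℕ), Odd k → g ^ k = 1 → (∀ ω, γ (φ g ω) = γ ω) →
        φ g = 1 := by
  intro n
  induction n with
  | zero =>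
    intro Ω _ φ h _
    have : IsEmpty Ω := by
      rcases Nat.card_eq_zero.1 (Nat.le_zero.1 h) with h | h
      · exact h
      · exact absurd ‹Finite Ω› h.not_finite
    exact ⟨fun _ => 0, fun g _ _ _ _ => Subsingleton.elim _ _⟩
  | succ n ih =>
    intro Ω _ φ hcard hlen
    by_cases hφ : ∃ g, φ g ≠ 1
    swap
    · push Not at hφ
      exact ⟨fun _ => 0, fun g _ _ _ _ => hφ g⟩
    obtain ⟨p, hp, H, hcomm, hexp, hnorm, hran, h₀, hh₀, hh₁⟩ := exists_elem_ab2 φ hφ
    have : Fact p.Prime := ⟨hp⟩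
    have hnorm' : ∀ (g : G) (h : H), ∃ h' : H, ∀ x, φ g (h • x) = h' • φ g x := by
      intro g h
      refine ⟨⟨φ g * h * (φ g)⁻¹, hnorm g h h.2⟩, fun x => ?_⟩
      show φ g ((h : Equiv.Perm Ω) x) = (φ g * h * (φ g)⁻¹) (φ g x)
      simp
    let Q := orbitRel.Quotient H Ω
    let mk : Ω → Q := Quotient.mk (orbitRel H Ω)
    have hmk : ∀ x y, mk x = mk y ↔ x ∈ orbit H y := fun x y => Quotient.eq
    have hrel : ∀ (g : G) x y, x ∈ orbit H y → φ g x ∈ orbit H (φ g y) := by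
      rintro g x y ⟨h, rfl⟩
      obtain ⟨h', hh'⟩ := hnorm' g h
      exact ⟨h', (hh' y).symm⟩
    let act : G → Q → Q := fun g => Quotient.map (φ g) (hrel g)
    have hact : ∀ g x, act g (mk x) = mk (φ g x) := fun _ _ => rfl
    have hsurj : Function.Surjective mk := Quotient.mk_surjective
    let _ : MulAction G Q :=
      { smul := act
        one_smul := by
          intro q
          obtain ⟨x, rfl⟩ := hsurj q
          show act 1 (mk x) = mk x
          rw [hact, map_one]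
          rfl
        mul_smul := by
          intro a b q
          obtain ⟨x, rfl⟩ := hsurj q
          show act (a * b) (mk x) = act a (act b (mk x))
          rw [hact, hact, hact, map_mul]
          rfl }
    have hlt : Nat.card Q ≤ n := by
      have h1 : ¬ Function.Injective mk := by
        intro hinj
        apply hh₁
        ext x
        exact hinj ((hmk _ _).2 ⟨⟨h₀, hh₀⟩, rfl⟩)
      have := Fintype.ofFinite Ω
      have := Fintype.ofFinite Q
      have h2 := Fintype.card_lt_of_surjective_not_injective mk hsurj h1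
      rw [← Nat.card_eq_fintype_card, ← Nat.card_eq_fintype_card] at h2
      omega
    have hmul : ∀ x, (orbit H x).ncard * len (toPermHom G Q) (mk x) = len φ x := by
      intro x
      let T := (stabilizer (Equiv.Perm Q) (mk x)).comap (toPermHom G Q)
      have hT : ∀ g, g ∈ T ↔ mk (φ g x) = mk x := fun g => Iff.rfl
      have hle : (stabilizer (Equiv.Perm Ω) x).comap φ ≤ T := fun g hg =>
        (hT g).2 (congrArg mk hg)
      rw [len, len, ← Subgroup.relIndex_mul_index hle]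
      congr 1
      let _ : MulAction T Ω := MulAction.compHom Ω (φ.comp T.subtype)
      have h1 : orbit T x = orbit H x := by
        ext y
        constructor
        · rintro ⟨g, rfl⟩
          exact (hmk _ _).1 ((hT g).1 g.2)
        · rintro ⟨h, rfl⟩
          obtain ⟨g, hg⟩ := hran h h.2
          have h2 : φ g x = h • x := by rw [hg]; rfl
          exact ⟨⟨g, (hT g).2 ((hmk _ _).2 ⟨h, h2.symm⟩)⟩, h2⟩
      rw [← h1, ← index_stabilizer]
      rfl
    obtain ⟨δ, hδ⟩ := ih Q (toPermHom G Q) hlt fun q hq => by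
      obtain ⟨x, rfl⟩ := hsurj q
      have h1 : len (toPermHom G Q) (mk x) ∣ len φ x := Dvd.intro_left _ (hmul x)
      have h2 := hlen x (hq.trans h1)
      rw [h2] at h1
      exact Nat.dvd_antisymm h1 hq
    have hblock : ∀ q : Q, ∃ c : Ω → Fin 2,
        (Maj (cn {x | mk x = q} c) (δ q) ∨ ∀ g, act g q = q) ∧ Rig H {x | mk x = q} c := by
      intro q
      obtain ⟨x₀, rfl⟩ := hsurj q
      have horb : {x | mk x = mk x₀} = orbit H x₀ := Set.ext fun x => hmk x x₀
      rw [horb]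
      have fin : (∃ c : Ω → Fin 2, cn (orbit H x₀) c 0 ≠ cn (orbit H x₀) c 1 ∧
          Rig H (orbit H x₀) c) → ∃ c : Ω → Fin 2, (Maj (cn (orbit H x₀) c) (δ (mk x₀)) ∨
            ∀ g, act g (mk x₀) = mk x₀) ∧ Rig H (orbit H x₀) c := by
        rintro ⟨c, hc1, hc2⟩
        obtain ⟨c', h1, h2⟩ := recolour hc1 hc2 (δ (mk x₀))
        exact ⟨c', Or.inl h1, h2⟩
      by_cases hp2 : p = 2
      swap
      · exact fin (block_odd hp2 hcomm hexp x₀)
      subst hp2
      obtain ⟨m, hm⟩ := orbit_pow hexp x₀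
      rcases m with _ | _ | m
      · exact fin (block_small _ ⟨x₀, mem_orbit_self x₀⟩ (by omega))
      · exact fin (block_small _ ⟨x₀, mem_orbit_self x₀⟩ (by omega))
      have h1 := hmul x₀
      have h2 : 4 ∣ (orbit H x₀).ncard := ⟨2 ^ m, by rw [hm]; ring⟩
      rw [hlen x₀ (h2.trans (Dvd.intro _ h1))] at h1
      have h3 : (orbit H x₀).ncard = 4 := Nat.dvd_antisymm (Dvd.intro _ h1) h2
      rw [h3] at h1
      have h4 : len (toPermHom G Q) (mk x₀) = 1 := by omega
      obtain ⟨c, hc⟩ := block_four (H := H) _ h3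
      refine ⟨c, Or.inr fun g => ?_, hc⟩
      have h5 : g ∈ (stabilizer (Equiv.Perm Q) (mk x₀)).comap (toPermHom G Q) := by
        rw [Subgroup.index_eq_one.1 h4]
        trivial
      exact h5
    choose c hc1 hc2 using hblock
    refine ⟨fun x => c (mk x) x, fun g k hk hg hγ => ?_⟩
    have hfix : toPermHom G Q g = 1 := by
      refine hδ g k hk hg fun q => ?_
      show δ (act g q) = δ q
      rcases hc1 q with hq | hq
      swap
      · rw [hq g]
      rcases hc1 (act g q) with hq' | hq'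
      swap
      · have h1 : g⁻¹ • g • q = g • q := hq' g⁻¹
        rw [inv_smul_smul] at h1
        exact congrArg δ h1.symm
      refine maj_unique hq' ?_
      suffices e : cn {x | mk x = act g q} (c (act g q)) = cn {x | mk x = q} (c q) by
        rw [e]
        exact hq
      funext j
      unfold cn
      rw [← Set.ncard_image_of_injective {x | x ∈ {x | mk x = q} ∧ c q x = j} (φ g).injective]
      congr 1
      ext y
      simp only [Set.mem_ofPred_eq, Set.mem_image]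
      constructor
      · rintro ⟨h1, h2⟩
        obtain ⟨x, rfl⟩ := (φ g).surjective y
        have h3 : mk x = q := by
          have h4 : g • mk x = g • q := h1
          exact MulAction.injective g h4
        refine ⟨x, ⟨h3, ?_⟩, rfl⟩
        have h5 := hγ x
        simp only at h5
        rw [← h3, ← h5, h1, h2]
      · rintro ⟨x, ⟨h1, h2⟩, rfl⟩
        have h3 : mk (φ g x) = act g q := by rw [← h1, hact]
        refine ⟨h3, ?_⟩
        have h5 := hγ x
        simp only at h5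
        rw [← h3, h5, h1, h2]
    have hfix' : ∀ x, mk (φ g x) = mk x := fun x => by
      have := congrArg (fun σ : Equiv.Perm Q => σ (mk x)) hfix
      exact this
    ext x
    refine hc2 (mk x) (φ g) k hk (by rw [← map_pow, hg, map_one]) (hnorm' g)
      (fun y hy => (hfix' y).trans hy) (fun y hy => ?_) x rfl
    have h5 := hγ y
    have hy' : mk y = mk x := hy
    simp only at h5
    rw [hfix', hy'] at h5
    exact h5

/-- The colour-preserving subgroup. -/
def keep {Ω : Type*} (G : Subgroup (Equiv.Perm Ω)) (γ : Ω → Fin 2) : Subgroup (Equiv.Perm Ω) where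
  carrier := {g | g ∈ G ∧ ∀ ω, γ (g ω) = γ ω}
  mul_mem' := by
    rintro a b ⟨ha, ha'⟩ ⟨hb, hb'⟩
    exact ⟨G.mul_mem ha hb, fun ω => by rw [Equiv.Perm.mul_apply, ha', hb']⟩
  one_mem' := ⟨G.one_mem, fun _ => rfl⟩
  inv_mem' := by
    rintro a ⟨ha, ha'⟩
    refine ⟨G.inv_mem ha, fun ω => ?_⟩
    rw [← ha' (a⁻¹ ω)]
    simp

theorem pos {Ω : Type*} [Finite Ω] (G : Subgroup (Equiv.Perm Ω)) [Group.IsSolvable G]
    (h : ∀ ω : Ω, 4 ∣ (orbit G ω).ncard → (orbit G ω).ncard = 4) :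
    ∃ γ : Ω → Fin 2, ∃ k : ℕ,
      Nat.card {g : Equiv.Perm Ω // g ∈ G ∧ ∀ ω, γ (g ω) = γ ω} = 2 ^ k := by
  have e : ∀ ω, len G.subtype ω = (orbit G ω).ncard := fun ω => by
    rw [← index_stabilizer]
    rfl
  obtain ⟨γ, hγ⟩ := colouring2 (G := G) _ Ω G.subtype le_rfl fun ω => by
    rw [e]
    exact h ω
  refine ⟨γ, ?_⟩
  have hK : IsPGroup 2 (keep G γ) := by
    intro g
    obtain ⟨e, m, hm, he⟩ := Nat.exists_eq_two_pow_mul_odd (orderOf_pos g).ne'
    refine ⟨e, ?_⟩
    have h1 : (g ^ 2 ^ e) ^ m = 1 := by rw [← pow_mul, ← he, pow_orderOf_eq_one]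
    have h2 := hγ ⟨(g ^ 2 ^ e : keep G γ), (g ^ 2 ^ e).2.1⟩ m hm
      (Subtype.ext (by simpa using congrArg Subtype.val h1)) (g ^ 2 ^ e).2.2
    exact Subtype.ext h2
  exact (IsPGroup.iff_card (G := keep G γ)).1 hK

end Pool.Agent.Work.MP_2fb0b3_al.Hedge
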