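import Mathlib
import Pool.Agent.Work.MP_2fb0b3_al.Hedge.Pos

/-! Transitive solvable groups of degree `8 m`, and of degree `4 m` with `m > 1` odd, in which no
set-stabiliser is a 2-group. -/

namespace Pool.Agent.Work.MP_2fb0b3_al.Hedge

open MulAction
open scoped commutatorElement

/-- A chain of length `n` from `K` down to the trivial subgroup with abelian steps. -/
def Ch {G : Type*} [Group G] : ℕ → Subgroup G → Prop
  | 0, K => K ≤ ⊥
  | n + 1, K => ∃ K', ⁅K, K⁆ ≤ K' ∧ Ch n K'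

lemma Ch.solv {G : Type*} [Group G] : ∀ {n : ℕ} {K : Subgroup G}, Ch n K → Group.IsSolvable K
  | 0, K, h => by
    rw [le_bot_iff.1 h]
    infer_instance
  | n + 1, K, ⟨K', h1, h2⟩ => by
    have := h2.solv
    let f : commutator K →* K' := (K.subtype.comp (commutator K).subtype).codRestrict K' fun x =>
      h1 (K.map_subtype_commutator ▸ Subgroup.mem_map_of_mem K.subtype x.2)
    have : Group.IsSolvable (commutator K) := Group.isSolvable_of_isSolvable_injective (f := f)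
      fun a b h => Subtype.ext (Subtype.ext (congrArg (fun z : K' => (z : G)) h))
    exact Group.isSolvable_of_ker_le_range (commutator K).subtype Abelianization.of
      (by rw [Abelianization.ker_of, Subgroup.range_subtype])

lemma not_good {Ω : Type*} [Finite Ω] {G : Subgroup (Equiv.Perm Ω)} {γ : Ω → Fin 2}
    {σ : Equiv.Perm Ω} (h1 : σ ∈ G) (h2 : ∀ ω, γ (σ ω) = γ ω) (h3 : σ ≠ 1) {r : ℕ} (hr : Odd r)
    (h4 : σ ^ r = 1) (k : ℕ) :
    Nat.card {g : Equiv.Perm Ω // g ∈ G ∧ ∀ ω, γ (g ω) = γ ω} ≠ 2 ^ k := by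
  intro h
  have h5 : Nat.card (keep G γ) = 2 ^ k := h
  have h6 : (⟨σ, h1, h2⟩ : keep G γ) ^ 2 ^ k = 1 := by rw [← h5, pow_card_eq_one']
  have h7 : σ ^ 2 ^ k = 1 := congrArg Subtype.val h6
  have h8 : Nat.Coprime (2 ^ k) r := (Nat.coprime_two_left.2 hr).pow_left k
  exact h3 (orderOf_eq_one_iff.1 (Nat.eq_one_of_dvd_coprimes h8
    (orderOf_dvd_of_pow_eq_one h7) (orderOf_dvd_of_pow_eq_one h4)))

section wreath
variable {X Y : Type} [AddCommGroup Y]

/-- An element of the wreath product with the regular group of `Y`. -/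
def mkW (a : Y) (h : Y → Equiv.Perm X) : Equiv.Perm (X × Y) where
  toFun z := (h z.2 z.1, z.2 + a)
  invFun z := ((h (z.2 - a))⁻¹ z.1, z.2 - a)
  left_inv z := by simp
  right_inv z := by simp

lemma mkW_mul (a b : Y) (h g : Y → Equiv.Perm X) :
    mkW a h * mkW b g = mkW (b + a) fun y => h (y + b) * g y := by
  ext1 z
  exact Prod.ext rfl (add_assoc _ _ _)

lemma mkW_inv (a : Y) (h : Y → Equiv.Perm X) : (mkW a h)⁻¹ = mkW (-a) fun y => (h (y - a))⁻¹ := by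
  ext1 z
  exact Prod.ext rfl (sub_eq_add_neg _ _)

lemma mkW_one : mkW (0 : Y) (fun _ => (1 : Equiv.Perm X)) = 1 := by
  ext1 z
  exact Prod.ext rfl (add_zero _)

/-- The wreath product of `H` with the group of translations of `Y` by elements of `A`. -/
def Wr (H : Subgroup (Equiv.Perm X)) (A : AddSubgroup Y) : Subgroup (Equiv.Perm (X × Y)) where
  carrier := {σ | ∃ a ∈ A, ∃ h : Y → Equiv.Perm X, (∀ y, h y ∈ H) ∧ σ = mkW a h}
  mul_mem' := by
    rintro _ _ ⟨a, ha, h, hh, rfl⟩ ⟨b, hb, g, hg, rfl⟩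
    exact ⟨_, A.add_mem hb ha, _, fun y => H.mul_mem (hh _) (hg _), mkW_mul a b h g⟩
  one_mem' := ⟨0, A.zero_mem, _, fun _ => H.one_mem, mkW_one.symm⟩
  inv_mem' := by
    rintro _ ⟨a, ha, h, hh, rfl⟩
    exact ⟨_, A.neg_mem ha, _, fun y => H.inv_mem (hh _), mkW_inv a h⟩

lemma Ch.base : ∀ {n : ℕ} {K : Subgroup (Equiv.Perm X)}, Ch n K → Ch n (Wr K (⊥ : AddSubgroup Y))
  | 0, K, h => by
    rintro _ ⟨a, ha, g, hg, rfl⟩
    have h1 : g = fun _ => 1 := funext fun y => h (hg y)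
    rw [AddSubgroup.mem_bot.1 ha, h1, mkW_one]
    exact Subgroup.one_mem _
  | n + 1, K, ⟨K', h1, h2⟩ => by
    refine ⟨_, Subgroup.commutator_le.2 ?_, h2.base⟩
    rintro _ ⟨a, ha, h, hh, rfl⟩ _ ⟨b, hb, g, hg, rfl⟩
    rw [AddSubgroup.mem_bot.1 ha, AddSubgroup.mem_bot.1 hb, commutatorElement_def, mkW_inv,
      mkW_inv, mkW_mul, mkW_mul, mkW_mul]
    refine ⟨_, by simp, _, fun y => ?_, rfl⟩
    simpa [commutatorElement_def] using h1 (Subgroup.commutator_mem_commutator (hh y) (hg y))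

lemma Ch.wr {n : ℕ} {K : Subgroup (Equiv.Perm X)} (h : Ch n K) :
    Ch (n + 1) (Wr K (⊤ : AddSubgroup Y)) := by
  refine ⟨_, Subgroup.commutator_le.2 ?_, h.base⟩
  rintro _ ⟨a, -, h, hh, rfl⟩ _ ⟨b, -, g, hg, rfl⟩
  rw [commutatorElement_def, mkW_inv, mkW_inv, mkW_mul, mkW_mul, mkW_mul]
  refine ⟨_, AddSubgroup.mem_bot.2 (by abel), _, fun y => ?_, rfl⟩
  exact K.mul_mem (K.mul_mem (K.mul_mem (hh _) (hg _)) (K.inv_mem (hh _))) (K.inv_mem (hg _))

lemma wr_trans {H : Subgroup (Equiv.Perm X)} (h : ∀ x x' : X, ∃ g ∈ H, g x = x') :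
    IsPretransitive (Wr H (⊤ : AddSubgroup Y)) (X × Y) := by
  refine ⟨fun z z' => ?_⟩
  obtain ⟨g, hg, e⟩ := h z.1 z'.1
  exact ⟨⟨mkW (z'.2 - z.2) fun _ => g, _, trivial, _, fun _ => hg, rfl⟩,
    Prod.ext e (add_sub_cancel _ _)⟩

/-- The colouring `c` is preserved by an element of order 3 of `H`. -/
def Sym3 (H : Subgroup (Equiv.Perm X)) (c : X → Fin 2) : Prop :=
  ∃ h ∈ H, h ≠ 1 ∧ h * h * h = 1 ∧ ∀ x, c (h x) = c x

lemma bad_fibre [Finite X] [Finite Y] {H : Subgroup (Equiv.Perm X)} (γ : X × Y → Fin 2) (y₀ : Y)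
    (h : Sym3 H fun x => γ (x, y₀)) (k : ℕ) :
    Nat.card {g : Equiv.Perm (X × Y) // g ∈ Wr H (⊤ : AddSubgroup Y) ∧ ∀ ω, γ (g ω) = γ ω} ≠
      2 ^ k := by
  classical
  obtain ⟨h, h1, h2, h3, h4⟩ := h
  refine not_good (G := Wr H ⊤) (σ := mkW 0 fun y => if y = y₀ then h else 1) (r := 3)
    ⟨0, trivial, _, fun y => ?_, rfl⟩ (fun z => ?_) (fun e => h2 ?_) (by decide) ?_ k
  · split_ifs
    · exact h1
    · exact H.one_mem
  · obtain ⟨x, y⟩ := z
    show γ ((if y = y₀ then h else 1) x, y + 0) = _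
    rw [add_zero]
    split_ifs with e
    · rw [e]
      exact h4 x
    · rfl
  · ext x
    have h5 : (if y₀ = y₀ then h else 1) x = x :=
      congrArg (fun σ : Equiv.Perm (X × Y) => (σ (x, y₀)).1) e
    rwa [if_pos rfl] at h5
  · rw [pow_three', mkW_mul, mkW_mul, ← mkW_one]
    congr 1
    · simp
    · funext y
      simp only [add_zero]
      split_ifs
      · exact h3
      · simp

lemma bad_shift [Finite X] [Nonempty X] {m : ℕ} (hm : Odd m) (h1 : 1 < m)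
    {H : Subgroup (Equiv.Perm X)} (γ : X × ZMod m → Fin 2)
    (h : ∀ y, ∃ g ∈ H, ∀ x, γ (g x, y) = γ (x, 0)) (k : ℕ) :
    Nat.card {g : Equiv.Perm (X × ZMod m) //
      g ∈ Wr H (⊤ : AddSubgroup (ZMod m)) ∧ ∀ ω, γ (g ω) = γ ω} ≠ 2 ^ k := by
  have : NeZero m := ⟨by omega⟩
  have : Fact (1 < m) := ⟨h1⟩
  choose g hg1 hg2 using h
  let s : Equiv.Perm (X × ZMod m) := mkW 1 fun _ => 1
  have hs : ∀ n : ℕ, s ^ n = mkW (n : ZMod m) fun _ => 1 := by
    intro n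
    induction n with
    | zero => rw [pow_zero, Nat.cast_zero, mkW_one]
    | succ n ih =>
      rw [pow_succ', ih, mkW_mul, Nat.cast_succ]
      rfl
  have hP : mkW 0 g ∈ Wr H (⊤ : AddSubgroup (ZMod m)) := ⟨0, trivial, g, hg1, rfl⟩
  have hγ : ∀ z, γ (mkW 0 g z) = γ (z.1, 0) := fun z => by
    show γ (g z.2 z.1, z.2 + 0) = _
    rw [add_zero, hg2]
  refine not_good (σ := mkW 0 g * s * (mkW 0 g)⁻¹)
    (Subgroup.mul_mem _ (Subgroup.mul_mem _ hP ⟨1, trivial, _, fun _ => H.one_mem, rfl⟩)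
      (Subgroup.inv_mem _ hP)) (fun z => ?_) (fun e => ?_) hm ?_ k
  · obtain ⟨w, rfl⟩ := (mkW 0 g).surjective z
    rw [← Equiv.Perm.mul_apply, inv_mul_cancel_right, Equiv.Perm.mul_apply, hγ, hγ]
    rfl
  · rw [conj_eq_one_iff] at e
    have h5 : (0 : ZMod m) + 1 = 0 :=
      congrArg (fun σ : Equiv.Perm (X × ZMod m) => (σ (Classical.arbitrary X, 0)).2) e
    rw [zero_add] at h5
    exact one_ne_zero h5
  · rw [conj_pow, hs, ZMod.natCast_self, mkW_one, mul_one, mul_inv_cancel]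

end wreath

/-- Affine data: an addition `xr` of exponent two and a monoid of additive maps `L`. -/
structure AD (X I : Type) where
  xr : X → X → X
  L : I → X → X
  mu : I → I → I
  one : I
  zero : X
  assoc : ∀ x y z, xr (xr x y) z = xr x (xr y z)
  comm : ∀ x y, xr x y = xr y x
  self : ∀ x y, xr (xr x y) y = x
  zr : ∀ x, xr x zero = x
  add : ∀ i x y, L i (xr x y) = xr (L i x) (L i y)
  mul : ∀ i j x, L i (L j x) = L (mu i j) x
  id : ∀ x, L one x = x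
  inj : ∀ i x y, L i x = L i y → x = y

namespace AD
variable {X I : Type} [Finite X] (D : AD X I)

/-- The affine permutation with linear part `L i` and translation part `c`. -/
noncomputable def el (i : I) (c : X) : Equiv.Perm X :=
  Equiv.ofBijective (fun x => D.xr (D.L i x) c) (Finite.injective_iff_bijective.1 fun x y h =>
    D.inj i x y (by rw [← D.self (D.L i x) c, ← D.self (D.L i y) c]; exact congrArg (D.xr · c) h))

lemma el_apply (i : I) (c x : X) : D.el i c x = D.xr (D.L i x) c := rfl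

/-- The affine permutations with linear part in `S`. -/
def grp (S : I → Prop) (h1 : S D.one) (h2 : ∀ i j, S i → S j → S (D.mu i j)) :
    Subgroup (Equiv.Perm X) :=
  let M : Submonoid (Equiv.Perm X) :=
    { carrier := {σ | ∃ i, S i ∧ ∃ c, ∀ x, σ x = D.xr (D.L i x) c}
      mul_mem' := by
        rintro σ τ ⟨i, hi, c, h⟩ ⟨j, hj, e, h'⟩
        exact ⟨_, h2 i j hi hj, D.xr (D.L i e) c, fun x => by
          rw [Equiv.Perm.mul_apply, h, h', D.add, D.mul, D.assoc]⟩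
      one_mem' := ⟨_, h1, D.zero, fun x => by rw [D.id, D.zr]; rfl⟩ }
  { M with
    inv_mem' := fun {σ} h => by
      have e : σ⁻¹ = σ ^ (orderOf σ - 1) := by
        rw [inv_eq_iff_mul_eq_one, ← pow_succ', Nat.sub_add_cancel (orderOf_pos σ),
          pow_orderOf_eq_one]
      rw [e]
      exact M.pow_mem h _ }

lemma el_mem {S : I → Prop} {h1 h2} {i : I} (hi : S i) (c : X) : D.el i c ∈ D.grp S h1 h2 :=
  ⟨i, hi, c, fun _ => rfl⟩

lemma comm_le {S S' : I → Prop} {h1 h2 h1' h2'}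
    (h : ∀ i j, S i → S j → ∃ r, S' r ∧ ∀ x, D.L i (D.L j x) = D.L r (D.L j (D.L i x))) :
    ⁅D.grp S h1 h2, D.grp S h1 h2⁆ ≤ D.grp S' h1' h2' := by
  rw [Subgroup.commutator_le]
  rintro σ ⟨i, hi, c, hσ⟩ τ ⟨j, hj, e, hτ⟩
  obtain ⟨r, hr, h3⟩ := h i j hi hj
  refine ⟨r, hr, D.xr (D.L r (D.xr (D.L j c) e)) (D.xr (D.L i e) c), fun x => ?_⟩
  obtain ⟨y, rfl⟩ := (τ * σ).surjective x
  have h4 : ⁅σ, τ⁆ ((τ * σ) y) = σ (τ y) := by simp [commutatorElement_def]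
  rw [h4, Equiv.Perm.mul_apply, hσ, hτ, hτ, hσ, D.add i, D.add j, D.assoc (D.L i _),
    D.assoc (D.L j _), D.add r (D.L j (D.L i y)), ← D.assoc (D.xr (D.L r _) _), D.self, h3]

lemma ch_one {h1 h2} : Ch 1 (D.grp (· = D.one) h1 h2) := by
  refine ⟨⊥, Subgroup.commutator_le.2 ?_, le_rfl⟩
  rintro σ ⟨_, rfl, c, hσ⟩ τ ⟨_, rfl, e, hτ⟩
  rw [Subgroup.mem_bot, commutatorElement_eq_one_iff_mul_comm]
  ext x
  simp only [Equiv.Perm.mul_apply, hσ, hτ, D.id, D.assoc, D.comm c e]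

lemma trans {S : I → Prop} {h1 h2} (x x' : X) : ∃ g ∈ D.grp S h1 h2, g x = x' :=
  ⟨_, D.el_mem h1 (D.xr x' x), by rw [el_apply, D.id, D.comm, D.self]⟩

lemma sym3 {h1 h2} {b : X → Fin 2} {i : I} {c : X}
    (h3 : ∀ x, b (D.xr (D.L i x) c) = b x)
    (h4 : ∀ x, D.xr (D.L i (D.xr (D.L i (D.xr (D.L i x) c)) c)) c = x)
    (h5 : ∃ x, D.xr (D.L i x) c ≠ x) : Sym3 (D.grp (fun _ => True) h1 h2) b := by
  refine ⟨_, D.el_mem (i := i) trivial c, fun e => ?_, Equiv.ext h4, h3⟩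
  obtain ⟨x, hx⟩ := h5
  exact hx (congrArg (fun σ : Equiv.Perm X => σ x) e)

end AD

/-- The field with four elements and multiplication by its units. -/
def D4 : AD (Fin 4) (Fin 3) where
  xr x c := ⟨(x.val ^^^ c.val) % 4, Nat.mod_lt _ (by decide)⟩
  L i x := ⟨(0x9c78e4 >>> (2 * (4 * i.val + x.val))) % 4, Nat.mod_lt _ (by decide)⟩
  mu i j := i + j
  one := 0
  zero := 0
  assoc := by decide +kernel
  comm := by decide +kernel
  self := by decide +kernel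
  zr := by decide +kernel
  add := by decide +kernel
  mul := by decide +kernel
  id := by decide +kernel
  inj := by decide +kernel

/-- The field with eight elements and its semilinear maps. -/
def D8 : AD (Fin 8) (Fin 7 × Fin 3) where
  xr x c := ⟨(x.val ^^^ c.val) % 8, Nat.mod_lt _ (by decide)⟩
  L i x := ⟨(0xea1ce8873ea8cfa868c5573855cc7873157874f8b03e277089d3f09ee458b919d8467b985bb360ecd5a0356ee02f4bd0d2f2d0bcbd10b1af886beb08fac688 >>>
    (3 * (8 * (3 * i.1.val + i.2.val) + x.val))) % 8, Nat.mod_lt _ (by decide)⟩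
  mu i j := (⟨(i.1.val + 2 ^ i.2.val * j.1.val) % 7, Nat.mod_lt _ (by decide)⟩, i.2 + j.2)
  one := (0, 0)
  zero := 0
  assoc := by decide +kernel
  comm := by decide +kernel
  self := by decide +kernel
  zr := by decide +kernel
  add := by decide +kernel
  mul := by decide +kernel
  id := by decide +kernel
  inj := by decide +kernel

/-- The alternating group on four points. -/
def H4 : Subgroup (Equiv.Perm (Fin 4)) := D4.grp (fun _ => True) trivial fun _ _ _ _ => trivial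

/-- The affine semilinear group on eight points. -/
def H8 : Subgroup (Equiv.Perm (Fin 8)) := D8.grp (fun _ => True) trivial fun _ _ _ _ => trivial

lemma ch4 : Ch 2 H4 :=
  ⟨_, D4.comm_le (by decide +kernel), D4.ch_one (h1 := rfl) (h2 := by decide +kernel)⟩

lemma ch8 : Ch 3 H8 :=
  ⟨D8.grp (fun i => i.2 = 0) rfl (by decide +kernel), D8.comm_le (by decide +kernel), _,
    D8.comm_le (by decide +kernel), D8.ch_one (h1 := rfl) (h2 := by decide +kernel)⟩

/-- A table of elements of order 3, one for each subset. -/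
def wit (s : ℕ) : (Fin 7 × Fin 3) × Fin 8 :=
  let w := 0xc06f11c04989c19041405662ae0b6229e0c3319b59401d4a893f93edd80ad1d04142a082104fa2f1ef0a104f20803ab4750791475af5082ad1fb0ef40000004f00c3330ade32d18699018614583599d9b426aeea250fad145ec93130a08024cc27b145b7e409abba89d26766d60145186426186b4c7abc0c0c3c13000000d3bc3e46b082d6bd5145e41dd2a0e083c1042bc7bc8be104082a900417742a077b4fe4e22b505066d64c0c378a8ad82b89915004167026613047c1b0000000 >>> (6 * s)
  ((⟨w % 8 % 7, Nat.mod_lt _ (by decide)⟩, 1), ⟨w / 8 % 8, Nat.mod_lt _ (by decide)⟩)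

lemma tab8 : ∀ b0 b1 b2 b3 b4 b5 b6 b7 : Fin 2,
    ∀ w, w = wit (b0.val + 2 * b1.val + 4 * b2.val + 8 * b3.val + 16 * b4.val + 32 * b5.val +
      64 * b6.val + 128 * b7.val) →
    (∀ x, ![b0, b1, b2, b3, b4, b5, b6, b7] (D8.xr (D8.L w.1 x) w.2) =
      ![b0, b1, b2, b3, b4, b5, b6, b7] x) ∧
    (∀ x, D8.xr (D8.L w.1 (D8.xr (D8.L w.1 (D8.xr (D8.L w.1 x) w.2)) w.2)) w.2 = x) ∧
    ∃ x, D8.xr (D8.L w.1 x) w.2 ≠ x := by
  simp only [forall_eq]
  decide +kernel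

lemma sym8 (b : Fin 8 → Fin 2) : Sym3 H8 b := by
  have e : b = ![b 0, b 1, b 2, b 3, b 4, b 5, b 6, b 7] := by
    funext x
    fin_cases x <;> rfl
  obtain ⟨h1, h2, h3⟩ := tab8 (b 0) (b 1) (b 2) (b 3) (b 4) (b 5) (b 6) (b 7) _ rfl
  rw [← e] at h1
  exact D8.sym3 h1 h2 h3

lemma tab4 : ∀ b b' : Fin 4 → Fin 2, (∃ c, ∀ x, b (D4.xr (D4.L 1 x) c) = b x) ∨
    (∃ c, ∀ x, b' (D4.xr (D4.L 1 x) c) = b' x) ∨ ∃ i c, ∀ x, b' (D4.xr (D4.L i x) c) = b x := by
  decide +kernel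

lemma sym4 {b : Fin 4 → Fin 2} (h : ∃ c, ∀ x, b (D4.xr (D4.L 1 x) c) = b x) : Sym3 H4 b := by
  obtain ⟨c, h⟩ := h
  revert h
  have h1 : ∀ c x, D4.xr (D4.L 1 (D4.xr (D4.L 1 (D4.xr (D4.L 1 x) c)) c)) c = x := by
    decide +kernel
  have h2 : ∀ c, ∃ x, D4.xr (D4.L 1 x) c ≠ x := by decide +kernel
  exact fun h => D4.sym3 h (h1 c) (h2 c)

theorem neg {n : ℕ} (h0 : n ≠ 0) (h4 : 4 ∣ n) (hn : n ≠ 4) :
    ∃ (Ω : Type) (_ : Finite Ω) (G : Subgroup (Equiv.Perm Ω)), Nat.card Ω = n ∧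
      Group.IsSolvable G ∧ IsPretransitive G Ω ∧ ∀ (γ : Ω → Fin 2) (k : ℕ),
        Nat.card {g : Equiv.Perm Ω // g ∈ G ∧ ∀ ω, γ (g ω) = γ ω} ≠ 2 ^ k := by
  obtain ⟨m, rfl⟩ := h4
  rcases Nat.even_or_odd m with ⟨l, rfl⟩ | hm
  · have : NeZero l := ⟨by omega⟩
    refine ⟨Fin 8 × ZMod l, inferInstance, Wr H8 ⊤, ?_, ch8.wr.solv, wr_trans D8.trans,
      fun γ => bad_fibre γ 0 (sym8 _)⟩
    rw [Nat.card_prod, Nat.card_zmod, Nat.card_fin]
    omega
  · have : NeZero m := ⟨by omega⟩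
    refine ⟨Fin 4 × ZMod m, inferInstance, Wr H4 ⊤, ?_, ch4.wr.solv, wr_trans D4.trans,
      fun γ k => ?_⟩
    · rw [Nat.card_prod, Nat.card_zmod, Nat.card_fin]
    by_cases h : ∃ y, Sym3 H4 fun x => γ (x, y)
    · obtain ⟨y, h⟩ := h
      exact bad_fibre γ y h k
    refine bad_shift hm (by omega) γ (fun y => ?_) k
    rcases tab4 (fun x => γ (x, 0)) (fun x => γ (x, y)) with h1 | h1 | ⟨i, c, h1⟩
    · exact absurd ⟨_, sym4 h1⟩ h
    · exact absurd ⟨_, sym4 h1⟩ h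
    · exact ⟨_, D4.el_mem (i := i) trivial c, h1⟩

end Pool.Agent.Work.MP_2fb0b3_al.Hedge
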