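import Mathlib
import Pool.Agent.Work.MP_2fb0b3_al.Hedge.Aff2
import Pool.Agent.Work.MP_2fb0b3_al.Hedge.Neg

/-! Solvable groups without a section `A₄`: two colours, with a strict majority colour. -/

namespace Pool.Agent.Work.MP_2fb0b3_al.Hedge

open MulAction Pool.Agent.Work.MP_2fb0b3_al

lemma rigid_all (p : ℕ) [hp : Fact p.Prime] (n : ℕ) : ∃ S : Set (Fin n → ZMod p),
    p ^ n < 2 * S.ncard ∧ ∀ (τ : Equiv.Perm (Fin n → ZMod p)) (k : ℕ), Odd k →
      (p = 2 → Nat.Coprime k 3) → τ ^ k = 1 → (∀ v, ∃ v', ∀ w, τ (v + w) = v' + τ w) →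
      (∀ y ∈ S, τ y ∈ S) → ∀ v, τ v = v := by
  have : NeZero p := ⟨hp.out.ne_zero⟩
  have hc : ∀ S : Set (Fin n → ZMod p), S.ncard + Sᶜ.ncard = p ^ n := fun S => by
    rw [Set.ncard_add_ncard_compl, Nat.card_fun, Nat.card_zmod, Nat.card_fin]
  suffices h : ∃ S : Set (Fin n → ZMod p), 2 * S.ncard ≠ p ^ n ∧
      ∀ (τ : Equiv.Perm (Fin n → ZMod p)) (k : ℕ), Odd k →
      (p = 2 → Nat.Coprime k 3) → τ ^ k = 1 → (∀ v, ∃ v', ∀ w, τ (v + w) = v' + τ w) →
      (∀ y ∈ S, τ y ∈ S) → ∀ v, τ v = v by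
    obtain ⟨S, h1, h2⟩ := h
    rcases lt_or_gt_of_ne h1 with h3 | h3
    · refine ⟨Sᶜ, by have := hc S; omega, fun τ k hk h4 hτ haff hS => h2 τ k hk h4 hτ haff ?_⟩
      intro y hy
      by_contra h5
      exact inv_back τ hk hτ (· ∈ Sᶜ) hS h5 hy
    · exact ⟨S, h3, h2⟩
  rcases n with _ | d
  · exact ⟨∅, by simp, fun τ _ _ _ _ _ _ v => Subsingleton.elim _ _⟩
  by_cases hp2 : p = 2
  · subst hp2
    obtain ⟨S, h1, h2⟩ := rigid_even d
    exact ⟨S, h1.ne, fun τ k hk h3 => h2 τ k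
      (Nat.Coprime.mul_right (Nat.coprime_two_right.2 hk) (h3 rfl))⟩
  · refine ⟨{v | S2 v}, fun h => ?_, fun τ k hk _ hτ haff hS v => rigid2 hp2 τ hk hτ haff hS v⟩
    obtain ⟨m, hm⟩ := (hp.out.odd_of_ne_two hp2).pow (n := d + 1)
    omega

lemma block_all (p : ℕ) [hp : Fact p.Prime] : ∃ M : ℕ → ℕ, ∀ {H Ω : Type*} [Group H] [Finite H]
    [Finite Ω] [MulAction H Ω], (∀ a b : H, a * b = b * a) → (∀ h : H, h ^ p = 1) → ∀ x₀ : Ω,
    ∃ T : Set Ω, T ⊆ orbit H x₀ ∧ T.ncard = M (orbit H x₀).ncard ∧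
      (orbit H x₀).ncard < 2 * T.ncard ∧ ∀ (σ : Equiv.Perm Ω) (k : ℕ), Odd k →
      (p = 2 → Nat.Coprime k 3) → (∀ x ∈ orbit H x₀, (σ ^ k) x = x) →
      (∀ h : H, ∃ h' : H, ∀ x, σ (h • x) = h' • σ x) → (∀ x ∈ orbit H x₀, σ x ∈ orbit H x₀) →
      (∀ x ∈ T, σ x ∈ T) → ∀ x ∈ orbit H x₀, σ x = x := by
  classical
  choose S hS1 hS2 using rigid_all p
  refine ⟨fun N => (S (Nat.log p N)).ncard, ?_⟩
  intro H Ω _ _ _ _ hcomm hexp x₀
  have : NeZero p := ⟨hp.out.ne_zero⟩
  let _ : CommGroup H := { ‹Group H› with mul_comm := hcomm }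
  obtain ⟨n, β, hinj, hrange, h1, h2⟩ := coords (p := p) (H := H) hexp x₀
  rw [← hrange]
  have hN : (Set.range β).ncard = p ^ n := by
    rw [← Set.image_univ, Set.ncard_image_of_injective _ hinj, Set.ncard_univ, Nat.card_fun,
      Nat.card_zmod, Nat.card_fin]
  have hT : (β '' S n).ncard = (S n).ncard := Set.ncard_image_of_injective _ hinj
  refine ⟨β '' S n, Set.image_subset_range _ _, ?_, by rw [hN, hT]; exact hS1 n, ?_⟩
  · rw [hN, hT]
    beta_reduce
    rw [Nat.log_pow hp.out.one_lt]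
  rintro σ k hk h3 hσ hnorm hB hc x ⟨v, rfl⟩
  let f : (Fin n → ZMod p) → (Fin n → ZMod p) := fun v => Function.invFun β (σ (β v))
  have hf : ∀ v, β (f v) = σ (β v) := fun v => Function.invFun_eq (hB _ ⟨v, rfl⟩)
  have hfinj : Function.Injective f := by
    intro u w h
    apply hinj
    apply σ.injective
    rw [← hf, ← hf, h]
  let τ : Equiv.Perm (Fin n → ZMod p) :=
    Equiv.ofBijective f (Finite.injective_iff_bijective.1 hfinj)
  have hτ : ∀ v, β (τ v) = σ (β v) := hf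
  have hpow : ∀ (m : ℕ) v, β ((τ ^ m) v) = (σ ^ m) (β v) := by
    intro m
    induction m with
    | zero => intro v; rfl
    | succ m ih =>
      intro v
      rw [pow_succ', pow_succ', Equiv.Perm.mul_apply, Equiv.Perm.mul_apply, hτ, ih]
  have := hS2 n τ k hk h3 (by
      ext1 v
      apply hinj
      rw [hpow, hσ _ ⟨v, rfl⟩]
      rfl)
    (by
      intro u
      obtain ⟨h, hh⟩ := h1 u
      obtain ⟨h', hh'⟩ := hnorm h
      obtain ⟨u', hu'⟩ := h2 h'
      refine ⟨u', fun w => hinj ?_⟩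
      rw [hτ, hh, hh', ← hτ, hu'])
    (by
      intro u hu
      obtain ⟨w, hw, e⟩ := hc _ ⟨u, hu, rfl⟩
      rw [← hτ] at e
      rwa [← hinj e]) v
  rw [← hτ, this]

/-- The graph of a homomorphism from a subgroup of `G` onto `A₄`. -/
def Sec (G : Type*) [Group G] : Prop :=
  ∃ K : Subgroup (G × alternatingGroup (Fin 4)), (∀ a ∈ K, a.1 = 1 → a.2 = 1) ∧
    ∀ π, ∃ u, (u, π) ∈ K

lemma Sec.out {G : Type*} [Group G] (h : Sec G) :
    ∃ (S : Subgroup G) (f : S →* alternatingGroup (Fin 4)), Function.Surjective f := by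
  obtain ⟨K, h1, h2⟩ := h
  let i : K →* G := (MonoidHom.fst _ _).comp K.subtype
  have hi : Function.Injective i := (injective_iff_map_eq_one i).2 fun a ha =>
    Subtype.ext (Prod.ext ha (h1 a a.2 ha))
  refine ⟨i.range, ((MonoidHom.snd _ _).comp K.subtype).comp
    (MonoidHom.ofInjective hi).symm.toMonoidHom, fun π => ?_⟩
  obtain ⟨u, hu⟩ := h2 π
  exact ⟨MonoidHom.ofInjective hi ⟨_, hu⟩, by simp⟩

lemma Sec.lift {K G : Type*} [Group K] [Group G] (S : Subgroup K) (f : S →* G)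
    (hf : Function.Surjective f) (h : Sec G) : Sec K := by
  obtain ⟨L, h1, h2⟩ := h
  refine ⟨(L.comap (f.prodMap (MonoidHom.id _))).map (S.subtype.prodMap (MonoidHom.id _)), ?_,
    fun π => ?_⟩
  · rintro _ ⟨⟨s, π⟩, h3, rfl⟩ h4
    have h5 : s = 1 := Subtype.ext h4
    subst h5
    exact h1 _ h3 (map_one f)
  · obtain ⟨u, hu⟩ := h2 π
    obtain ⟨s, rfl⟩ := hf u
    exact ⟨s, (s, π), hu, rfl⟩

lemma even_gen : ∀ π : Equiv.Perm (Fin 4), Equiv.Perm.sign π = 1 → ∃ i j : Fin 3, ∃ e : Fin 2,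
    π = (Equiv.swap 1 3 * Equiv.swap 1 2) ^ i.val * (Equiv.swap 0 3 * Equiv.swap 1 2) ^ e.val *
      (Equiv.swap 1 3 * Equiv.swap 1 2) ^ j.val := by
  decide +kernel

lemma sec_of_three {G Ω : Type*} [Group G] (φ : G →* Equiv.Perm Ω) (H : Subgroup (Equiv.Perm Ω))
    (hcomm : ∀ a b : H, a * b = b * a) (hexp : ∀ a : H, a ^ 2 = 1)
    (hnorm : ∀ g : G, ∀ h ∈ H, φ g * h * (φ g)⁻¹ ∈ H) (hran : ∀ h ∈ H, ∃ g, φ g = h) (g : G)
    (x : Ω) (h1 : φ g x ∈ orbit H x) (h3 : φ g (φ g (φ g x)) = x) (hx : φ g x ≠ x) : Sec G := by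
  obtain ⟨⟨a, ha⟩, e1⟩ := h1
  have e1 : a x = φ g x := e1
  obtain ⟨g₁, rfl⟩ := hran a ha
  set σ := φ g with hσ
  set a := φ g₁ with ha'
  have hc : ∀ u ∈ H, ∀ v ∈ H, ∀ z, u (v z) = v (u z) := fun u hu v hv z =>
    congrArg (fun w : H => (w : Equiv.Perm Ω) z) (hcomm ⟨u, hu⟩ ⟨v, hv⟩)
  have h2 : ∀ u ∈ H, ∀ z, u (u z) = z := fun u hu z => by
    have := congrArg (fun w : H => (w : Equiv.Perm Ω) z) (hexp ⟨u, hu⟩)
    simpa [sq] using this
  have hb := hnorm g a ha
  have hc' := hnorm g _ hb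
  rw [← hσ] at hb hc'
  set b := σ * a * σ⁻¹ with hb'
  set c := σ * b * σ⁻¹ with hc''
  have eb : ∀ z, b (σ z) = σ (a z) := fun z => by simp [hb']
  have ec : ∀ z, c (σ z) = σ (b z) := fun z => by simp [hc'']
  have e2 : b (σ x) = σ (σ x) := by rw [eb, e1]
  have e3 : c (σ (σ x)) = x := by rw [ec, e2, h3]
  have e4 : σ (b x) = b x := by
    rw [← ec, ← h2 b hb (σ x), e2, hc c hc' b hb, e3]
  have e5 : a (b x) = σ (σ x) := by rw [hc a ha b hb, e1, e2]
  have e6 : a (σ x) = x := by rw [← e1, h2 a ha]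
  have e7 : a (σ (σ x)) = b x := by rw [← e5, h2 a ha]
  have n1 : σ (σ x) ≠ σ x := fun h => hx (σ.injective h)
  have n2 : σ (σ x) ≠ x := fun h => hx (by rw [h] at h3; exact h3)
  have n3 : b x ≠ x := fun h => hx (by rwa [h] at e4)
  have n4 : b x ≠ σ x := fun h => n1 (by rwa [h] at e4)
  have n5 : b x ≠ σ (σ x) := fun h => n2 (by rw [h, h3] at e4; exact e4.symm)
  let e : Fin 4 → Ω := ![b x, x, σ x, σ (σ x)]
  have he : Function.Injective e := by
    intro i j hij
    fin_cases i <;> fin_cases j <;> first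
      | rfl
      | exact absurd hij (by assumption)
      | exact absurd hij.symm (by assumption)
  let K : Subgroup (G × alternatingGroup (Fin 4)) :=
    { carrier := {w | ∀ i, φ w.1 (e i) = e ((w.2 : Equiv.Perm (Fin 4)) i)}
      mul_mem' := fun {u v} hu hv i => by
        rw [Prod.fst_mul, map_mul, Equiv.Perm.mul_apply, hv, hu]
        rfl
      one_mem' := fun i => by simp
      inv_mem' := fun {u} hu i => by
        apply (φ u.1).injective
        rw [hu, Prod.fst_inv, map_inv]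
        simp }
  have k1 : ((g, ⟨Equiv.swap 1 3 * Equiv.swap 1 2, Equiv.Perm.mem_alternatingGroup.2 (by decide)⟩) :
      G × alternatingGroup (Fin 4)) ∈ K := by
    intro i
    fin_cases i
    exacts [e4, rfl, rfl, h3]
  have k2 : ((g₁, ⟨Equiv.swap 0 3 * Equiv.swap 1 2, Equiv.Perm.mem_alternatingGroup.2 (by decide)⟩) :
      G × alternatingGroup (Fin 4)) ∈ K := by
    intro i
    fin_cases i
    exacts [e5, e1, e6, e7]
  refine ⟨K, fun w hw h => Subtype.ext (Equiv.ext fun i => he ?_), fun π => ?_⟩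
  · rw [← hw i, h, map_one]
    rfl
  · obtain ⟨i, j, l, h⟩ := even_gen π π.2
    have h4 := K.mul_mem (K.mul_mem (K.pow_mem k1 i) (K.pow_mem k2 l)) (K.pow_mem k1 j)
    refine ⟨g ^ i.val * g₁ ^ l.val * g ^ j.val, ?_⟩
    convert h4 using 1
    exact Prod.ext rfl (Subtype.ext h)

/-- The sign of a colour. -/
def sg (i : Fin 2) : ℤ := if i = 0 then 1 else -1

lemma sum_block {Ω : Type*} [Fintype Ω] [DecidableEq Ω] (B : Finset Ω) (T : Set Ω)
    [DecidablePred (· ∈ T)] (hT : T ⊆ B) (i : Fin 2) :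
    ∑ x ∈ B, sg (if x ∈ T then i else i.rev) = (2 * (T.ncard : ℤ) - B.card) * sg i := by
  have h1 : ∀ x, sg (if x ∈ T then i else i.rev) = (2 * (if x ∈ T then 1 else 0) - 1) * sg i := by
    intro x
    split_ifs
    · ring
    · revert i
      decide
  have h2 : (B.filter (· ∈ T)).card = T.ncard := by
    rw [← Set.ncard_coe_finset]
    congr 1
    ext x
    simp only [Finset.coe_filter, Set.mem_ofPred_eq]
    exact ⟨fun h => h.2, fun h => ⟨hT h, h⟩⟩
  simp only [h1]
  rw [← Finset.sum_mul, Finset.sum_sub_distrib, ← Finset.mul_sum, Finset.sum_boole, h2]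
  simp

universe u

theorem colouring3 {G : Type*} [Group G] [Group.IsSolvable G] (hG : ¬ Sec G) :
    ∀ (n : ℕ) (Ω : Type u) [Fintype Ω] (φ : G →* Equiv.Perm Ω), Nat.card Ω ≤ n →
      ∃ γ : Ω → Fin 2, (∀ f : Ω → ℤ, (∀ g x, f (φ g x) = f x) → (∀ x, 0 < f x) → Nonempty Ω →
        0 < ∑ x, f x * sg (γ x)) ∧
        ∀ (g : G) (k : ℕ), Odd k → g ^ k = 1 → (∀ ω, γ (φ g ω) = γ ω) → φ g = 1 := by
  classical
  have base : ∀ (Ω : Type u) [Fintype Ω] (f : Ω → ℤ), (∀ x, 0 < f x) → Nonempty Ω →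
      0 < ∑ x, f x * sg 0 := fun Ω _ f hf _ =>
    Finset.sum_pos (fun x _ => by simpa [sg] using hf x) Finset.univ_nonempty
  intro n
  induction n with
  | zero =>
    intro Ω _ φ h
    have : IsEmpty Ω := by
      rcases Nat.card_eq_zero.1 (Nat.le_zero.1 h) with h | h
      · exact h
      · exact absurd (Finite.of_fintype Ω) h.not_finite
    exact ⟨fun _ => 0, fun f _ => base Ω f, fun g _ _ _ _ => Subsingleton.elim _ _⟩
  | succ n ih =>
    intro Ω _ φ hcard
    by_cases hφ : ∃ g, φ g ≠ 1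
    swap
    · push Not at hφ
      exact ⟨fun _ => 0, fun f _ => base Ω f, fun g _ _ _ _ => hφ g⟩
    obtain ⟨p, hp, H, hcomm, hexp, hnorm, hran, h₀, hh₀, hh₁⟩ := exists_elem_ab2 φ hφ
    have : Fact p.Prime := ⟨hp⟩
    have hnorm' : ∀ (g : G) (h : H), ∃ h' : H, ∀ x, φ g (h • x) = h' • φ g x := by
      intro g h
      refine ⟨⟨φ g * h * (φ g)⁻¹, hnorm g h h.2⟩, fun x => ?_⟩
      show φ g ((h : Equiv.Perm Ω) x) = (φ g * h * (φ g)⁻¹) (φ g x)
      simp
    let Q := orbitRel.Quotient H Ω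
    let mk : Ω → Q := Quotient.mk (orbitRel H Ω)
    have hmk : ∀ x y, mk x = mk y ↔ x ∈ orbit H y := fun x y => Quotient.eq
    have hrel : ∀ (g : G) x y, x ∈ orbit H y → φ g x ∈ orbit H (φ g y) := by
      rintro g x y ⟨h, rfl⟩
      obtain ⟨h', hh'⟩ := hnorm' g h
      exact ⟨h', (hh' y).symm⟩
    let act : G → Q → Q := fun g => Quotient.map (φ g) (hrel g)
    have hact : ∀ g x, act g (mk x) = mk (φ g x) := fun _ _ => rfl
    have hsurj : Function.Surjective mk := Quotient.mk_surjective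
    let _ : MulAction G Q :=
      { smul := act
        one_smul := by
          intro q
          obtain ⟨x, rfl⟩ := hsurj q
          show act 1 (mk x) = mk x
          rw [hact, map_one]
          rfl
        mul_smul := by
          intro a b q
          obtain ⟨x, rfl⟩ := hsurj q
          show act (a * b) (mk x) = act a (act b (mk x))
          rw [hact, hact, hact, map_mul]
          rfl }
    let _ := Fintype.ofFinite Q
    have hlt : Nat.card Q ≤ n := by
      have h1 : ¬ Function.Injective mk := by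
        intro hinj
        apply hh₁
        ext x
        exact hinj ((hmk _ _).2 ⟨⟨h₀, hh₀⟩, rfl⟩)
      have h2 := Fintype.card_lt_of_surjective_not_injective mk hsurj h1
      rw [← Nat.card_eq_fintype_card, ← Nat.card_eq_fintype_card] at h2
      omega
    obtain ⟨δ, hδ1, hδ⟩ := ih Q (toPermHom G Q) hlt
    obtain ⟨M, hM⟩ := block_all.{u, u} p
    choose r hr using fun q => hsurj q
    have horb : ∀ q, orbit H (r q) = {x | mk x = q} := fun q => Set.ext fun x => by
      rw [← hmk, hr]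
      rfl
    choose T hT1 hT2 hT3 hT4 using fun q => hM hcomm hexp (r q)
    simp only [horb] at hT1 hT2 hT3 hT4
    have himg : ∀ g q, φ g '' {x | mk x = q} = {x | mk x = act g q} := by
      intro g q
      ext y
      constructor
      · rintro ⟨x, rfl, rfl⟩
        rfl
      · intro h1
        obtain ⟨x, rfl⟩ := (φ g).surjective y
        have h4 : g • mk x = g • q := h1
        exact ⟨x, MulAction.injective g h4, rfl⟩
    have hsz : ∀ g q, {x | mk x = act g q}.ncard = {x | mk x = q}.ncard := fun g q => by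
      rw [← himg, Set.ncard_image_of_injective _ (φ g).injective]
    have hTs : ∀ g q, (T (act g q)).ncard = (T q).ncard := fun g q => by rw [hT2, hT2, hsz]
    refine ⟨fun x => if x ∈ T (mk x) then δ (mk x) else (δ (mk x)).rev, fun f hf1 hf2 hne => ?_,
      fun g k hk hg hγ => ?_⟩
    · have hfr : ∀ x, f x = f (r (mk x)) := fun x => by
        obtain ⟨h, e⟩ := (hmk x (r (mk x))).1 (hr _).symm
        obtain ⟨g, hg⟩ := hran h h.2
        rw [← hf1 g (r (mk x)), hg]
        exact congrArg f e.symm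
      have key := hδ1 (fun q => f (r q) * (2 * ((T q).ncard : ℤ) - {x | mk x = q}.ncard))
        (fun g q => by
          show f (r (act g q)) * (2 * ((T (act g q)).ncard : ℤ) - {x | mk x = act g q}.ncard) = _
          rw [hTs, hsz, ← hf1 g (r q), hfr (φ g (r q)), ← hact, hr])
        (fun q => mul_pos (hf2 _) (by have := hT3 q; omega)) ⟨mk hne.some⟩
      rw [← Finset.sum_fiberwise (s := Finset.univ) (g := mk)]
      refine key.trans_eq (Finset.sum_congr rfl fun q _ => ?_)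
      have h1 := sum_block (Finset.univ.filter fun x => mk x = q) (T q)
        (fun x hx => by simpa using hT1 q hx) (δ q)
      rw [← Set.ncard_coe_finset, Finset.coe_filter] at h1
      simp only [Finset.mem_univ, true_and] at h1
      rw [mul_assoc, ← h1, Finset.mul_sum]
      refine Finset.sum_congr rfl fun x hx => ?_
      beta_reduce
      rw [hfr x, (Finset.mem_filter.1 hx).2]
    have hne : ∀ i : Fin 2, i.rev ≠ i := by decide
    have hfix : toPermHom G Q g = 1 := by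
      refine hδ g k hk hg fun q => ?_
      show δ (act g q) = δ q
      by_contra h1
      have h2 : Disjoint (φ g '' T q) (T (act g q)) := by
        rw [Set.disjoint_left]
        rintro _ ⟨x, hx, rfl⟩ h3
        have h4 : mk x = q := hT1 q hx
        have h5 := hγ x
        simp only at h5
        rw [← hact, h4, if_pos h3, if_pos hx] at h5
        exact h1 h5
      have h3 : φ g '' T q ∪ T (act g q) ⊆ {x | mk x = act g q} :=
        Set.union_subset ((Set.image_mono (hT1 q)).trans (himg g q).le) (hT1 _)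
      have h4 := Set.ncard_le_ncard h3
      rw [Set.ncard_union_eq h2, Set.ncard_image_of_injective _ (φ g).injective, hTs, hsz] at h4
      have := hT3 q
      omega
    have hfix' : ∀ (m : ℕ) x, mk (φ (g ^ m) x) = mk x := fun m x => by
      have h1 : toPermHom G Q (g ^ m) = 1 := by rw [map_pow, hfix, one_pow]
      exact congrArg (fun σ : Equiv.Perm Q => σ (mk x)) h1
    have hfix1 : ∀ x, mk (φ g x) = mk x := by simpa using hfix' 1
    obtain ⟨k', hk1, hk2, hk3⟩ : ∃ k', Odd k' ∧ (p = 2 → Nat.Coprime k' 3) ∧ φ g ^ k' = 1 := by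
      by_cases hp2 : p = 2
      swap
      · exact ⟨k, hk, fun h => absurd h hp2, by rw [← map_pow, hg, map_one]⟩
      subst hp2
      obtain ⟨s, k', h1, h2⟩ := Nat.exists_eq_pow_mul_and_not_dvd hk.pos.ne' 3 (by norm_num)
      refine ⟨k', (Nat.odd_mul.1 (h2 ▸ hk)).2,
        fun _ => ((Nat.Prime.coprime_iff_not_dvd Nat.prime_three).2 h1).symm, ?_⟩
      have h3 : ∀ s m : ℕ, φ (g ^ (3 ^ s * m)) = 1 → φ (g ^ m) = 1 := by
        intro s
        induction s with
        | zero => intro m h; simpa using h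
        | succ s ih2 =>
          intro m h
          have h4 := ih2 (m * 3) (by rw [← h]; congr 2; ring)
          ext x
          by_contra h5
          refine hG (sec_of_three φ H hcomm hexp hnorm hran (g ^ m) x
            ((hmk _ _).1 (hfix' m x)) ?_ h5)
          rw [pow_mul, map_pow, pow_three] at h4
          exact congrArg (fun σ : Equiv.Perm Ω => σ x) h4
      rw [← map_pow]
      exact h3 s k' (by rw [← h2, hg, map_one])
    ext x
    refine hT4 (mk x) (φ g) k' hk1 hk2 (fun y _ => by rw [hk3]; rfl) (hnorm' g)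
      (fun y hy => (hfix1 y).trans hy) (fun y hy => ?_) x rfl
    have h5 := hγ y
    have hy' : mk y = mk x := hT1 _ hy
    simp only at h5
    rw [hfix1, hy', if_pos hy] at h5
    by_contra h6
    rw [if_neg h6] at h5
    exact hne _ h5

theorem free {Ω : Type*} [Finite Ω] [Nonempty Ω] (G : Subgroup (Equiv.Perm Ω))
    [Group.IsSolvable G] (h : ¬ Sec G) :
    ∃ γ : Ω → Fin 2, {ω | γ ω = 0}.ncard ≠ {ω | γ ω = 1}.ncard ∧ ∃ k : ℕ,
      Nat.card {g : Equiv.Perm Ω // g ∈ G ∧ ∀ ω, γ (g ω) = γ ω} = 2 ^ k := by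
  classical
  have := Fintype.ofFinite Ω
  obtain ⟨γ, hγ1, hγ⟩ := colouring3 (G := G) h _ Ω G.subtype le_rfl
  refine ⟨γ, fun e => ?_, ?_⟩
  · have h1 := hγ1 (fun _ => 1) (fun _ _ => rfl) (fun _ => one_pos) ‹_›
    have h2 := sum_block Finset.univ {ω | γ ω = 0} (by simp) 0
    have h3 := cn_total Set.univ γ
    simp only [cn, Set.mem_univ, true_and, Set.ncard_univ, Nat.card_eq_fintype_card] at h3
    have h4 : ∀ i : Fin 2, sg (if i = 0 then 0 else (0 : Fin 2).rev) = sg i := by decide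
    simp only [Set.mem_ofPred_eq, h4, Finset.card_univ] at h2
    simp only [one_mul, h2] at h1
    simp only [sg, if_true, mul_one] at h1
    omega
  have hK : IsPGroup 2 (keep G γ) := by
    intro g
    obtain ⟨e, m, hm, he⟩ := Nat.exists_eq_two_pow_mul_odd (orderOf_pos g).ne'
    refine ⟨e, ?_⟩
    have h1 : (g ^ 2 ^ e) ^ m = 1 := by rw [← pow_mul, ← he, pow_orderOf_eq_one]
    have h2 := hγ ⟨(g ^ 2 ^ e : keep G γ), (g ^ 2 ^ e).2.1⟩ m hm
      (Subtype.ext (by simpa using congrArg Subtype.val h1)) (g ^ 2 ^ e).2.2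
    exact Subtype.ext h2
  exact (IsPGroup.iff_card (G := keep G γ)).1 hK

lemma four_bad : ∀ γ : Fin 4 → Fin 2,
    (Finset.univ.filter fun ω => γ ω = 0).card ≠ (Finset.univ.filter fun ω => γ ω = 1).card →
    ∃ σ : Equiv.Perm (Fin 4), Equiv.Perm.sign σ = 1 ∧ (∀ ω, γ (σ ω) = γ ω) ∧ σ ≠ 1 ∧ σ ^ 3 = 1 := by
  decide +kernel

theorem alt_bad (γ : Fin 4 → Fin 2) (h : {ω | γ ω = 0}.ncard ≠ {ω | γ ω = 1}.ncard) (k : ℕ) :
    Nat.card {g : Equiv.Perm (Fin 4) // g ∈ alternatingGroup (Fin 4) ∧ ∀ ω, γ (g ω) = γ ω} ≠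
      2 ^ k := by
  obtain ⟨σ, h1, h2, h3, h4⟩ := four_bad γ (by
    rw [← Set.ncard_coe_finset, ← Set.ncard_coe_finset]
    simpa using h)
  exact not_good (G := alternatingGroup (Fin 4)) h1 h2 h3 (by decide) h4 k

end Pool.Agent.Work.MP_2fb0b3_al.Hedge
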